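import Pool.Agent.Lib.MP_1ad228_ntU.U_Def
import Pool.Agent.Lib.MP_1ad228_ntZ.FL

/-!
LEAF U_BoxF.  For a global function field the box is the space `L(c)`.
Let `t` be the variable, `O` the integral closure of `F[t]` in `K` (`FunctionField.ringOfIntegers F K`), `P = Pinf F K` the integral
closure of the valuation ring `Ainf F` of `F(t)` at infinity, `s = 1/t` (`sP`, `sP_coe`, `sP_mem` in FP.lean; there also the Dedekind and
fraction field instances of `P`; Defs of `Ainf`, `Pinf`: FI.lean).
(⊆) `z` in the box. For every `v : HeightOneSpectrum O` apply the hypothesis to `v.adicAbv (K := K) (b := 2) _`: `t` is in `O`, so `|t| ≤ 1`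
(`HeightOneSpectrum.adicAbv_coe_le_one`), so `|z| ≤ 1`, that is `v.valuation K z ≤ 1` (`adicAbv`, `adicAbvDef`,
`WithZeroMulInt.toNNReal_le_one_iff`). So `z` comes from `O` (`HeightOneSpectrum.mem_integers_of_valuation_le_one`), so it is integral over `F[t]`.
For every `v : HeightOneSpectrum P`: `s` is in `P`, so `|s| ≤ 1`, `|t| = 1/|s| ≥ 1`, `|z| ≤ |t|^c`, `|s^c z| ≤ 1`. So `s^c z` comes from `P`.
(⊇) `z` in `L(c)`, `v` an absolute value of `K`. (a) Every nonzero `a` in `F` has `a^(q-1) = 1` (`q = card F`), so `v a = 1`; also `v n ≤ 1`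
for every natural number `n` (it is in the image of `F`, so `v n` is 0 or 1); so `v` is nonarchimedean
(`IsUltrametricDist.isUltrametricDist_of_forall_norm_natCast_le_one` for the normed field `WithAbs v` or `v.toNormedField`).
(b) If `y` is integral over a ring `R` (with `Algebra R K`) all of whose elements have `v ≤ 1`, then `v y ≤ 1` (if `v y > 1`, in the equation
`y^m = - sum a_i y^i`, `i < m`, the right hand side has `v ≤ (v y)^(m-1)`).
(c) If `v t ≤ 1` then `v ≤ 1` on `F[t]`, so `v z ≤ 1`. If `v t > 1` then `v f = (v t)^(natDegree f)` for every nonzero `f` in `F[t]`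
(the leading term is the unique largest one), so `v ≤ 1` on `Ainf F`, so `v (s^c z) ≤ 1` and `v z ≤ (v t)^c`.
-/

namespace Pool.Agent.Lib.MP_1ad228_ntU

open Polynomial IsDedekindDomain

/-- An absolute value which is at most `1` on the natural numbers is nonarchimedean. -/
private theorem U_BoxF_na {K : Type} [Field K] (v : AbsoluteValue K ℝ) (h : ∀ n : ℕ, v (n : K) ≤ 1) :
    IsNonarchimedean v := by
  let _ : NormedField K := v.toNormedField
  have h1 : IsUltrametricDist K :=
    IsUltrametricDist.isUltrametricDist_of_forall_norm_natCast_le_one h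
  intro x y
  exact IsUltrametricDist.norm_add_le_max x y

private theorem U_BoxF_neg {K : Type} [Field K] (v : AbsoluteValue K ℝ) (a : K) : v a = v (-a) :=
  (v.map_neg a).symm

/-- Integral elements over a ring of elements with `v ≤ 1`. -/
private theorem U_BoxF_int {R K : Type} [CommRing R] [Field K] [Algebra R K]
    (v : AbsoluteValue K ℝ) (hna : IsNonarchimedean v) (hR : ∀ r : R, v (algebraMap R K r) ≤ 1)
    {y : K} (hy : IsIntegral R y) : v y ≤ 1 := by
  by_contra hlt
  rw [not_le] at hlt
  obtain ⟨p, hp, hp0⟩ := hy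
  rw [Polynomial.eval₂_eq_sum_range] at hp0
  have hn : algebraMap R K (p.coeff p.natDegree) * y ^ p.natDegree = y ^ p.natDegree := by
    rw [Polynomial.coeff_natDegree, hp.leadingCoeff, map_one, one_mul]
  have h1 := IsNonarchimedean.apply_sum_eq_of_lt hna (U_BoxF_neg v)
    (s := Finset.range (p.natDegree + 1))
    (l := fun i => algebraMap R K (p.coeff i) * y ^ i) (k := p.natDegree)
    (Finset.self_mem_range_succ _) (by
      intro j hj hjn
      have hj' : j < p.natDegree := by
        have := Finset.mem_range.1 hj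
        omega
      simp only [hn]
      rw [map_mul, map_pow, map_pow]
      calc v (algebraMap R K (p.coeff j)) * v y ^ j ≤ 1 * v y ^ j :=
            mul_le_mul_of_nonneg_right (hR _) (pow_nonneg (v.nonneg y) j)
        _ = v y ^ j := one_mul _
        _ < v y ^ p.natDegree := pow_lt_pow_right₀ hlt hj')
  simp only [hn] at h1
  rw [hp0, map_zero, map_pow] at h1
  exact absurd h1 (pow_pos (one_pos.trans hlt) _).ne

section field
variable {F K : Type} [Field F] [Finite F] [Field K] [Algebra F[X] K] (v : AbsoluteValue K ℝ)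

private theorem U_BoxF_const (a : F) (ha : a ≠ 0) : v (algebraMap F[X] K (C a)) = 1 := by
  have := Fintype.ofFinite F
  have h1 := FiniteField.pow_card_sub_one_eq_one a ha
  have h2 : v (algebraMap F[X] K (C a)) ^ (Fintype.card F - 1) = 1 := by
    rw [← map_pow, ← map_pow, ← map_pow, h1, map_one, map_one, map_one]
  have h3 : Fintype.card F - 1 ≠ 0 := by
    have := Fintype.one_lt_card (α := F)
    omega
  exact (pow_eq_one_iff_of_nonneg (v.nonneg _) h3).1 h2

private theorem U_BoxF_const' (a : F) : v (algebraMap F[X] K (C a)) ≤ 1 := by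
  by_cases ha : a = 0
  · rw [ha, map_zero, map_zero, map_zero]
    exact zero_le_one
  · exact (U_BoxF_const v a ha).le

variable (F) in
include F in
private theorem U_BoxF_na' : IsNonarchimedean v := by
  refine U_BoxF_na v fun n => ?_
  have h : (n : K) = algebraMap F[X] K (C (n : F)) := by
    rw [map_natCast, map_natCast]
  rw [h]
  exact U_BoxF_const' v _

private theorem U_BoxF_term (i : ℕ) (f : F[X]) :
    v (algebraMap F[X] K (C (f.coeff i) * X ^ i)) ≤ v (algebraMap F[X] K X) ^ i := by
  rw [map_mul, map_mul, map_pow, map_pow]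
  calc v (algebraMap F[X] K (C (f.coeff i))) * v (algebraMap F[X] K X) ^ i
      ≤ 1 * v (algebraMap F[X] K X) ^ i :=
        mul_le_mul_of_nonneg_right (U_BoxF_const' v _) (pow_nonneg (v.nonneg _) i)
    _ = v (algebraMap F[X] K X) ^ i := one_mul _

omit [Finite F] in
private theorem U_BoxF_sum (f : F[X]) : algebraMap F[X] K f =
    ∑ i ∈ Finset.range (f.natDegree + 1), algebraMap F[X] K (C (f.coeff i) * X ^ i) := by
  rw [← map_sum, ← f.as_sum_range_C_mul_X_pow]

/-- If `v t ≤ 1`, then `v ≤ 1` on the polynomials. -/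
private theorem U_BoxF_poly (ht : v (algebraMap F[X] K X) ≤ 1) (f : F[X]) :
    v (algebraMap F[X] K f) ≤ 1 := by
  rw [U_BoxF_sum f]
  have h1 := IsNonarchimedean.apply_sum_le_sup (U_BoxF_na' F v)
    (⟨0, Finset.mem_range.2 (Nat.succ_pos _)⟩ : (Finset.range (f.natDegree + 1)).Nonempty)
    (l := fun i => algebraMap F[X] K (C (f.coeff i) * X ^ i))
  refine h1.trans (Finset.sup'_le _ _ fun i _ => ?_)
  exact (U_BoxF_term v i f).trans (pow_le_one₀ (v.nonneg _) ht)

/-- If `v t > 1`, then `v f = (v t) ^ deg f`. -/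
private theorem U_BoxF_deg (ht : 1 < v (algebraMap F[X] K X)) (f : F[X]) (hf : f ≠ 0) :
    v (algebraMap F[X] K f) = v (algebraMap F[X] K X) ^ f.natDegree := by
  have hk : v (algebraMap F[X] K (C (f.coeff f.natDegree) * X ^ f.natDegree)) =
      v (algebraMap F[X] K X) ^ f.natDegree := by
    rw [map_mul, map_mul, map_pow, map_pow, U_BoxF_const v, one_mul]
    rw [Polynomial.coeff_natDegree]
    exact Polynomial.leadingCoeff_ne_zero.2 hf
  have h1 := IsNonarchimedean.apply_sum_eq_of_lt (U_BoxF_na' F v) (U_BoxF_neg v)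
    (s := Finset.range (f.natDegree + 1))
    (l := fun i => algebraMap F[X] K (C (f.coeff i) * X ^ i)) (k := f.natDegree)
    (Finset.self_mem_range_succ _) (by
      intro j hj hjn
      have hj' : j < f.natDegree := by
        have := Finset.mem_range.1 hj
        omega
      simp only [hk]
      exact (U_BoxF_term v j f).trans_lt (pow_lt_pow_right₀ ht hj'))
  rw [U_BoxF_sum f, h1, hk]

end field

section main
variable {F K : Type} [Field F] [Finite F] [Field K] [Algebra F[X] K]
    [Algebra (RatFunc F) K] [IsScalarTower F[X] (RatFunc F) K] (v : AbsoluteValue K ℝ)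

omit [Finite F] in
private theorem U_BoxF_X : algebraMap (RatFunc F) K RatFunc.X = algebraMap F[X] K X := by
  rw [IsScalarTower.algebraMap_apply F[X] (RatFunc F) K, RatFunc.algebraMap_X]

/-- If `v t > 1`, then `v ≤ 1` on the valuation ring at infinity. -/
private theorem U_BoxF_Ainf (ht : 1 < v (algebraMap F[X] K X))
    (z : Pool.Agent.Lib.MP_1ad228_ntZ.Ainf F) :
    v (algebraMap (Pool.Agent.Lib.MP_1ad228_ntZ.Ainf F) K z) ≤ 1 := by
  have h0 : algebraMap (Pool.Agent.Lib.MP_1ad228_ntZ.Ainf F) K z =
      algebraMap (RatFunc F) K (z : RatFunc F) :=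
    IsScalarTower.algebraMap_apply (Pool.Agent.Lib.MP_1ad228_ntZ.Ainf F) (RatFunc F) K z
  rw [h0]
  have hz := z.2
  generalize (z : RatFunc F) = w at hz
  rcases Pool.Agent.Lib.MP_1ad228_ntZ.mem_Ainf.1 hz with h | h
  · rw [h, map_zero, map_zero]
    exact zero_le_one
  · by_cases hw : w = 0
    · rw [hw, map_zero, map_zero]
      exact zero_le_one
    have hn : w.num ≠ 0 := RatFunc.num_ne_zero hw
    have hd : w.denom ≠ 0 := RatFunc.denom_ne_zero w
    have h1 : algebraMap F[X] K w.denom * algebraMap (RatFunc F) K w = algebraMap F[X] K w.num := by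
      rw [IsScalarTower.algebraMap_apply F[X] (RatFunc F) K,
        IsScalarTower.algebraMap_apply F[X] (RatFunc F) K w.num, ← map_mul]
      congr 1
      have h5 : algebraMap F[X] (RatFunc F) w.denom ≠ 0 := RatFunc.algebraMap_ne_zero hd
      have h6 := RatFunc.num_div_denom w
      rw [div_eq_iff h5] at h6
      rw [mul_comm, ← h6]
    have h2 := congrArg v h1
    rw [map_mul, U_BoxF_deg v ht _ hn, U_BoxF_deg v ht _ hd] at h2
    have h3 : w.num.natDegree ≤ w.denom.natDegree := by
      unfold RatFunc.intDegree at h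
      omega
    by_contra hc
    rw [not_le] at hc
    have h4 : 0 < v (algebraMap F[X] K X) ^ w.denom.natDegree := pow_pos (one_pos.trans ht) _
    have h5 : v (algebraMap F[X] K X) ^ w.num.natDegree ≤
        v (algebraMap F[X] K X) ^ w.denom.natDegree := pow_le_pow_right₀ ht.le h3
    nlinarith

end main

/-- The elements of absolute value at most `1` at all primes. -/
private theorem U_BoxF_range {R K : Type} [CommRing R] [IsDedekindDomain R] [Field K] [Algebra R K]
    [IsFractionRing R K] (x : K) (h : ∀ v : HeightOneSpectrum R,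
      v.adicAbv (K := K) (b := 2) one_lt_two x ≤ 1) : ∃ r : R, algebraMap R K r = x := by
  have h1 := HeightOneSpectrum.mem_integers_of_valuation_le_one (R := R) K x fun v =>
    (WithZeroMulInt.toNNReal_le_one_iff (e := 2) one_lt_two).1 (by exact_mod_cast h v)
  exact h1

theorem box_eq_LL (F K : Type) [Field F] [Finite F] [Field K] [Algebra F[X] K]
    [Algebra (RatFunc F) K] [IsScalarTower F[X] (RatFunc F) K] [FiniteDimensional (RatFunc F) K]
    [Algebra.IsSeparable (RatFunc F) K] (c : ℕ) :
    Box (algebraMap (RatFunc F) K RatFunc.X) c = Pool.Agent.Lib.MP_1ad228_ntZ.LL F K c := by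
  have hX : algebraMap (RatFunc F) K RatFunc.X ≠ 0 := by
    rw [Ne, map_eq_zero]
    exact RatFunc.X_ne_zero
  ext z
  constructor
  · intro hz
    refine ⟨?_, ?_⟩
    · obtain ⟨w, hw⟩ := U_BoxF_range (R := FunctionField.ringOfIntegers F K) z fun v => by
        refine (hz _).trans ?_
        have h1 : v.adicAbv (K := K) (b := 2) one_lt_two (algebraMap (RatFunc F) K RatFunc.X) ≤ 1 := by
          rw [U_BoxF_X, IsScalarTower.algebraMap_apply F[X] (FunctionField.ringOfIntegers F K) K]
          exact HeightOneSpectrum.adicAbv_coe_le_one v one_lt_two _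
        rw [max_eq_left h1, one_pow]
      rw [← hw]
      exact w.2
    · obtain ⟨w, hw⟩ := U_BoxF_range (R := Pool.Agent.Lib.MP_1ad228_ntZ.Pinf F K)
        (algebraMap (RatFunc F) K RatFunc.X⁻¹ ^ c * z) fun v => by
        have h1 : v.adicAbv (K := K) (b := 2) one_lt_two (algebraMap (RatFunc F) K RatFunc.X⁻¹) ≤ 1 := by
          rw [← Pool.Agent.Lib.MP_1ad228_ntZ.sP_coe]
          exact HeightOneSpectrum.adicAbv_coe_le_one v one_lt_two _
        have h2 := hz (v.adicAbv (K := K) (b := 2) one_lt_two)
        rw [map_inv₀, map_inv₀] at h1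
        rw [map_inv₀, map_mul, map_pow, map_inv₀]
        have h3 : 0 < v.adicAbv (K := K) (b := 2) one_lt_two (algebraMap (RatFunc F) K RatFunc.X) :=
          (v.adicAbv (K := K) (b := 2) one_lt_two).pos hX
        have h4 : 1 ≤ v.adicAbv (K := K) (b := 2) one_lt_two (algebraMap (RatFunc F) K RatFunc.X) := by
          by_contra hc
          rw [not_le] at hc
          exact absurd h1 (not_le.2 (one_lt_inv_iff₀.2 ⟨h3, hc⟩))
        rw [max_eq_right h4] at h2
        rw [inv_pow, inv_mul_le_iff₀ (pow_pos h3 c), mul_one]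
        exact h2
      rw [← hw]
      exact w.2
  · rintro ⟨h1, h2⟩ v
    rcases le_or_gt (v (algebraMap F[X] K X)) 1 with ht | ht
    · have h3 : v z ≤ 1 := U_BoxF_int v (U_BoxF_na' F v) (U_BoxF_poly v ht) h1
      rw [U_BoxF_X, max_eq_left ht, one_pow]
      exact h3
    · have h3 := U_BoxF_int v (U_BoxF_na' F v) (U_BoxF_Ainf v ht) h2
      rw [map_inv₀, map_mul, map_pow, map_inv₀, U_BoxF_X, inv_pow,
        inv_mul_le_iff₀ (pow_pos (one_pos.trans ht) c), mul_one] at h3
      rw [U_BoxF_X, max_eq_right ht.le]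
      exact h3

end Pool.Agent.Lib.MP_1ad228_ntU
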