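import Pool.Agent.Lib.MP_1ad228_ntU.U_Comp

/-!
LEAF U_BoxN.  For a number field and `t = N ≥ 2` the box consists of the algebraic integers all of whose conjugates are at most `N ^ c`.
(→) For every `v : HeightOneSpectrum (𝓞 K)` apply the hypothesis to `v.adicAbv (K := K) (b := 2) _`: `|N| ≤ 1`
(`HeightOneSpectrum.adicAbv_coe_le_one`), so `|z| ≤ 1`, `v.valuation K z ≤ 1`
(`adicAbv`, `adicAbvDef`, `WithZeroMulInt.toNNReal_le_one_iff`), and `z` is in `𝓞 K` (`HeightOneSpectrum.mem_integers_of_valuation_le_one`).
For `φ : K →+* ℂ` apply it to `absOf φ`: `‖φ z‖ ≤ max 1 ‖(N : ℂ)‖ ^ c = N ^ c`.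
(←) Let `v` be an absolute value of `K`.
Case 1: `v n ≤ 1` for all natural numbers `n`. Then `v` is nonarchimedean (`IsUltrametricDist.isUltrametricDist_of_forall_norm_natCast_le_one`
for the normed field `WithAbs v`), and `z` is integral over `ℤ`, so `v z ≤ 1` (equation `z^m = - sum a_i z^i`, `v a_i ≤ 1`).
Case 2: not. The restriction `w` of `v` to `ℚ` is unbounded on `ℕ`, so `w` is equivalent to the usual absolute value
(`Rat.AbsoluteValue.equiv_real_of_unbounded`; an equivalence means: there is `s > 0` with `w q = |q| ^ s`, `AbsoluteValue.isEquiv_iff_exists_rpow_eq`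
or similar). Put `y = z / N ^ c`; all conjugates of `y`, hence of `y ^ m`, have absolute value at most 1. Suppose `v y > 1`.
By `NumberField.Embeddings.coeff_bdd_of_norm_le` (with `B = 1`, `x = y ^ m`) the coefficients `a_i` of `minpoly ℚ (y ^ m)` have `|a_i| ≤ C`,
`C = choose D (D/2)`, `D = finrank ℚ K`, for every `m`. The minimal polynomial is monic of degree `e ≤ D`, so
`v(y^m)^e ≤ sum_(i<e) v(a_i) v(y^m)^i ≤ D C^s v(y^m)^(e-1)`, so `v(y)^m ≤ D C^s` for all `m`, a contradiction. So `v y ≤ 1`, that is
`v z ≤ v(N)^c ≤ max 1 (v N) ^ c`.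
-/

namespace Pool.Agent.Lib.MP_1ad228_ntU

open IsDedekindDomain NumberField

private theorem U_BoxN_sum {K ι : Type} [Field K] (v : AbsoluteValue K ℝ) (s : Finset ι) (f : ι → K) :
    v (∑ i ∈ s, f i) ≤ ∑ i ∈ s, v (f i) := by
  classical
  induction s using Finset.induction_on with
  | empty => simp
  | insert a s ha ih =>
    rw [Finset.sum_insert ha, Finset.sum_insert ha]
    exact (v.add_le _ _).trans (by linarith)

/-- If the coefficients of the minimal polynomials of all powers of `y` are bounded then `v y ≤ 1`. -/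
private theorem U_BoxN_le {K : Type} [Field K] [NumberField K] (v : AbsoluteValue K ℝ) (y : K) (B : ℝ)
    (hB : ∀ m i, v (algebraMap ℚ K ((minpoly ℚ (y ^ m)).coeff i)) ≤ B) : v y ≤ 1 := by
  by_contra h
  push Not at h
  have hB0 : 0 ≤ B := (v.nonneg _).trans (hB 0 0)
  have key : ∀ m : ℕ, v y ^ m ≤ (Module.finrank ℚ K : ℝ) * B := by
    intro m
    set x : K := y ^ m with hx
    have hvx : v x = v y ^ m := by rw [hx, map_pow]
    have h1 : 1 ≤ v x := by
      rw [hvx]
      exact one_le_pow₀ h.le
    have hint : IsIntegral ℚ x := IsIntegral.of_finite ℚ x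
    have he0 := minpoly.natDegree_pos hint
    have heD : (minpoly ℚ x).natDegree ≤ Module.finrank ℚ K := minpoly.natDegree_le x
    have hmon := minpoly.monic hint
    have h2 := minpoly.aeval ℚ x
    rw [Polynomial.aeval_eq_sum_range, Finset.sum_range_succ, hmon.coeff_natDegree, one_smul] at h2
    have h3 : x ^ (minpoly ℚ x).natDegree =
        -∑ i ∈ Finset.range (minpoly ℚ x).natDegree, (minpoly ℚ x).coeff i • x ^ i :=
      eq_neg_of_add_eq_zero_right h2
    have h4 : v x ^ (minpoly ℚ x).natDegree ≤
        ∑ i ∈ Finset.range (minpoly ℚ x).natDegree, B * v x ^ ((minpoly ℚ x).natDegree - 1) := by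
      rw [← map_pow, h3, v.map_neg]
      refine (U_BoxN_sum v _ _).trans (Finset.sum_le_sum fun i hi => ?_)
      rw [Algebra.smul_def, map_mul, map_pow]
      refine mul_le_mul (hB m i) (pow_le_pow_right₀ h1 ?_) (by positivity) hB0
      have := Finset.mem_range.mp hi
      omega
    rw [Finset.sum_const, Finset.card_range, nsmul_eq_mul] at h4
    have h5 : v x ^ (minpoly ℚ x).natDegree = v x * v x ^ ((minpoly ℚ x).natDegree - 1) := by
      rw [← pow_succ']
      congr 1
      omega
    rw [h5, ← mul_assoc] at h4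
    have h6 : v x ≤ ((minpoly ℚ x).natDegree : ℝ) * B :=
      le_of_mul_le_mul_right h4 (by positivity)
    rw [← hvx]
    refine h6.trans (mul_le_mul_of_nonneg_right ?_ hB0)
    exact_mod_cast heD
  obtain ⟨m, hm⟩ := pow_unbounded_of_one_lt ((Module.finrank ℚ K : ℝ) * B) h
  exact absurd (key m) (not_le.mpr hm)

theorem mem_boxN (K : Type) [Field K] [NumberField K] (N : ℕ) (hN : 2 ≤ N) (c : ℕ) (z : K) :
    z ∈ Box (N : K) c ↔ IsIntegral ℤ z ∧ ∀ φ : K →+* ℂ, ‖φ z‖ ≤ (N : ℝ) ^ c := by
  have hN1 : (1 : ℝ) ≤ N := by exact_mod_cast (by omega : 1 ≤ N)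
  constructor
  · intro h
    constructor
    · have h1 : z ∈ (algebraMap (𝓞 K) K).range := by
        refine HeightOneSpectrum.mem_integers_of_valuation_le_one K z fun v => ?_
        have h2 := h (NumberField.HeightOneSpectrum.adicAbv K v)
        have h3 : max 1 (NumberField.HeightOneSpectrum.adicAbv K v (N : K)) ^ c = 1 := by
          rw [max_eq_left (NumberField.HeightOneSpectrum.adicAbv_natCast_le_one K v N), one_pow]
        rw [h3, NumberField.HeightOneSpectrum.adicAbv_def] at h2
        exact (WithZeroMulInt.toNNReal_le_one_iff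
          (NumberField.HeightOneSpectrum.one_lt_absNorm_nnreal v)).mp (by exact_mod_cast h2)
      obtain ⟨a, ha⟩ := h1
      rw [← ha]
      exact RingOfIntegers.isIntegral_coe a
    · intro φ
      have h2 := h (absOf φ)
      have h3 : absOf φ (N : K) = N := by
        change ‖φ (N : K)‖ = N
        rw [map_natCast, Complex.norm_natCast]
      rw [h3, max_eq_right hN1] at h2
      exact h2
  · rintro ⟨hz, hφ⟩ v
    by_cases hb : ∀ n : ℕ, v (n : K) ≤ 1
    · have h1 : v z ≤ 1 := by
        refine U_BoxN_le v z 1 fun m i => ?_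
        rw [minpoly.isIntegrallyClosed_eq_field_fractions' ℚ (hz.pow m), Polynomial.coeff_map,
          eq_intCast, map_intCast]
        generalize (minpoly ℤ (z ^ m)).coeff i = a
        obtain ⟨n, rfl | rfl⟩ := a.eq_nat_or_neg
        · rw [Int.cast_natCast]
          exact hb n
        · rw [Int.cast_neg, v.map_neg, Int.cast_natCast]
          exact hb n
      exact h1.trans (one_le_pow₀ (le_max_left _ _))
    · -- the restriction to the rational numbers
      let w : AbsoluteValue ℚ ℝ := v.comp (algebraMap ℚ K).injective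
      have hw : ∀ q : ℚ, w q = v (algebraMap ℚ K q) := fun q => rfl
      have hwb : ¬ ∀ n : ℕ, w n ≤ 1 := by
        intro h
        apply hb
        intro n
        have := h n
        rwa [hw, map_natCast] at this
      obtain ⟨s, hs, hws⟩ := AbsoluteValue.isEquiv_iff_exists_rpow_eq.mp
        (Rat.AbsoluteValue.equiv_real_of_unbounded hwb)
      have hN0 : (N : K) ≠ 0 := by
        have : N ≠ 0 := by omega
        exact_mod_cast this
      have hy : v (z / (N : K) ^ c) ≤ 1 := by
        refine U_BoxN_le v _ ((max (1 : ℝ) 1 ^ Module.finrank ℚ K *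
          (Module.finrank ℚ K).choose (Module.finrank ℚ K / 2)) ^ s⁻¹) fun m i => ?_
        have h1 : ∀ φ : K →+* ℂ, ‖φ ((z / (N : K) ^ c) ^ m)‖ ≤ 1 := by
          intro φ
          rw [map_pow, norm_pow, map_div₀, map_pow, map_natCast, norm_div, norm_pow,
            Complex.norm_natCast]
          refine pow_le_one₀ (by positivity) ?_
          rw [div_le_one (by positivity)]
          exact hφ φ
        have h2 := NumberField.Embeddings.coeff_bdd_of_norm_le h1 i
        rw [← hw]
        set q : ℚ := (minpoly ℚ ((z / (N : K) ^ c) ^ m)).coeff i with hq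
        have h3 : w q ^ s = ‖q‖ := by
          have h4 := congrFun hws q
          simp only [Rat.AbsoluteValue.real_eq_abs] at h4
          rw [h4, ← Rat.norm_cast_real, Real.norm_eq_abs]
          push_cast
          rfl
        rw [← h3] at h2
        have h5 := Real.rpow_le_rpow (Real.rpow_nonneg (w.nonneg q) s) h2 (inv_nonneg.mpr hs.le)
        rwa [Real.rpow_rpow_inv (w.nonneg q) hs.ne'] at h5
      have h6 : v z = v (z / (N : K) ^ c) * v (N : K) ^ c := by
        rw [← map_pow, ← map_mul, div_mul_cancel₀ _ (pow_ne_zero c hN0)]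
      rw [h6]
      calc v (z / (N : K) ^ c) * v (N : K) ^ c ≤ 1 * v (N : K) ^ c :=
            mul_le_mul_of_nonneg_right hy (pow_nonneg (v.nonneg _) c)
        _ ≤ max 1 (v (N : K)) ^ c := by
            rw [one_mul]
            exact pow_le_pow_left₀ (v.nonneg _) (le_max_right _ _) c

end Pool.Agent.Lib.MP_1ad228_ntU
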