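import Pool.Agent.Lib.MP_1ad228_ntU.U_Def

/-!
U_Comp.  The completion at the absolute value of a prime of a Dedekind domain maps to the adic completion; the completion at
the absolute value of an embedding into a complete normed field maps to this field.
-/

namespace Pool.Agent.Lib.MP_1ad228_ntU

open IsDedekindDomain WithZeroMulInt

variable {K : Type} [Field K]

/-- The absolute value of a homomorphism to a normed field. -/
noncomputable def absOf {L : Type} [NormedField L] (σ : K →+* L) : AbsoluteValue K ℝ where
  toFun z := ‖σ z‖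
  map_mul' x y := by simp
  nonneg' x := norm_nonneg _
  eq_zero' x := by simp
  add_le' x y := by
    rw [map_add]
    exact norm_add_le _ _

theorem embHom {L : Type} [NormedField L] [CompleteSpace L] (σ : K →+* L) :
    ∃ φ : (absOf σ).Completion →+* L, ∀ z : K, φ (algebraMap K _ z) = σ z := by
  let g : WithAbs (absOf σ) →+* L := σ.comp (WithAbs.equiv (absOf σ)).toRingHom
  have hg : Isometry g := by
    refine AddMonoidHomClass.isometry_of_norm g ?_
    intro x
    rfl
  refine ⟨UniformSpace.Completion.extensionHom g hg.continuous, ?_⟩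
  intro z
  exact UniformSpace.Completion.extensionHom_coe g hg.continuous _

theorem adicHom (R : Type) [CommRing R] [IsDedekindDomain R] [Algebra R K] [IsFractionRing R K]
    (v : HeightOneSpectrum R) {b : NNReal} (hb : 1 < b) :
    ∃ φ : (v.adicAbv (K := K) hb).Completion →+* v.adicCompletion K,
      ∀ z : K, φ (algebraMap K _ z) = algebraMap K _ z := by
  let g : WithAbs (v.adicAbv (K := K) hb) →+* WithVal (v.valuation K) :=
    (WithVal.equiv (v.valuation K)).symm.toRingHom.comp
      (WithAbs.equiv (v.adicAbv (K := K) hb)).toRingHom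
  have hg : Continuous g := by
    refine continuous_of_continuousAt_zero g ?_
    rw [ContinuousAt, map_zero,
      (Valued.hasBasis_nhds_zero (WithVal (v.valuation K)) _).tendsto_right_iff]
    intro γ _
    have hb0 : b ≠ 0 := ne_zero_of_lt hb
    set e : WithZero (Multiplicative ℤ) :=
      MonoidWithZeroHom.ValueGroup₀.embedding (f := MonoidWithZeroHom.ofClass (Valued.v
        (R := WithVal (v.valuation K)))) γ.1 with he
    have he0 : e ≠ 0 := by
      rw [he]
      exact (map_ne_zero _).2 γ.ne_zero
    have hγ : (0 : ℝ) < toNNReal hb0 e := by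
      have := (map_ne_zero (toNNReal hb0)).2 he0
      positivity
    refine Metric.eventually_nhds_iff.2 ⟨toNNReal hb0 e, hγ, ?_⟩
    intro x hx
    rw [dist_zero_right] at hx
    show Valued.v.restrict (g x) < γ
    rw [Valuation.restrict_lt_iff_lt_embedding]
    have h1 : (toNNReal hb0 (v.valuation K (WithAbs.ofAbs x)) : ℝ) < toNNReal hb0 e := hx
    rw [NNReal.coe_lt_coe, (toNNReal_strictMono hb).lt_iff_lt] at h1
    exact h1
  refine ⟨(HeightOneSpectrum.adicCompletion.equiv K v).symm.toRingHom.comp
    (UniformSpace.Completion.mapRingHom g hg), ?_⟩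
  intro z
  have h2 := UniformSpace.Completion.mapRingHom_coe hg (WithAbs.toAbs _ z)
  show (HeightOneSpectrum.adicCompletion.equiv K v).symm
    (UniformSpace.Completion.mapRingHom g hg
      ((WithAbs.toAbs (v.adicAbv (K := K) hb) z : WithAbs (v.adicAbv (K := K) hb)) :
        (v.adicAbv (K := K) hb).Completion)) = _
  rw [h2]
  rfl

/-- Solubility over all completions gives zeros over the adic completions. -/
theorem locSol_adic (R : Type) [CommRing R] [IsDedekindDomain R] [Algebra R K] [IsFractionRing R K]
    {n r : ℕ} {f : Fin r → MvPolynomial (Fin (n + 1)) K} (h : LocSol f) (v : HeightOneSpectrum R) :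
    ∃ x : Fin (n + 1) → v.adicCompletion K, x ≠ 0 ∧ ∀ k, MvPolynomial.aeval x (f k) = 0 := by
  have hb : (1 : NNReal) < 2 := one_lt_two
  obtain ⟨φ, hφ⟩ := adicHom (K := K) R v hb
  have hv : (v.adicAbv (K := K) hb).IsNontrivial := by
    obtain ⟨y, hy, hy0⟩ := v.asIdeal.ne_bot_iff.1 v.ne_bot
    refine ⟨algebraMap R K y, ?_, ?_⟩
    · exact (map_ne_zero_iff _ (IsFractionRing.injective R K)).2 hy0
    · exact ((v.adicAbv_coe_lt_one_iff hb y).2 hy).ne
  obtain ⟨x, hx, h0⟩ := h _ hv
  refine ⟨fun i => φ (x i), ?_, fun k => ?_⟩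
  · intro h1
    apply hx
    funext i
    exact φ.injective ((congrFun h1 i).trans (map_zero φ).symm)
  · have h2 := congrArg φ (h0 k)
    rw [map_zero, MvPolynomial.aeval_def, MvPolynomial.eval₂_comp_left] at h2
    rw [MvPolynomial.aeval_def, ← h2]
    exact congrArg (fun ψ => MvPolynomial.eval₂ ψ (fun i => φ (x i)) (f k))
      (RingHom.ext fun z => (hφ z).symm)

/-- Solubility over all completions gives zeros over every complete normed field of which `K` is a subfield, not with the
trivial absolute value. -/
theorem locSol_emb {L : Type} [NormedField L] [CompleteSpace L] (σ : K →+* L)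
    (hσ : ∃ z : K, z ≠ 0 ∧ ‖σ z‖ ≠ 1)
    {n r : ℕ} {f : Fin r → MvPolynomial (Fin (n + 1)) K} (h : LocSol f) :
    ∃ x : Fin (n + 1) → L, x ≠ 0 ∧ ∀ k, (f k).eval₂ σ x = 0 := by
  obtain ⟨φ, hφ⟩ := embHom σ
  obtain ⟨x, hx, h0⟩ := h (absOf σ) hσ
  refine ⟨fun i => φ (x i), ?_, fun k => ?_⟩
  · intro h1
    apply hx
    funext i
    exact φ.injective ((congrFun h1 i).trans (map_zero φ).symm)
  · have h2 := congrArg φ (h0 k)
    rw [map_zero, MvPolynomial.aeval_def, MvPolynomial.eval₂_comp_left] at h2
    rw [← h2]
    congr 1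
    ext z
    exact (hφ z).symm

/-- A nonzero zero over `K` is a zero over all completions. -/
theorem locSol_of_zero {n r : ℕ} {f : Fin r → MvPolynomial (Fin (n + 1)) K}
    {x : Fin (n + 1) → K} (hx : x ≠ 0) (h0 : ∀ k, MvPolynomial.aeval x (f k) = 0) : LocSol f := by
  intro v _
  refine ⟨fun i => algebraMap K v.Completion (x i), ?_, fun k => ?_⟩
  · intro h1
    apply hx
    funext i
    exact (algebraMap K v.Completion).injective
      ((congrFun h1 i).trans (map_zero (algebraMap K v.Completion)).symm)
  · have h2 := congrArg (algebraMap K v.Completion) (h0 k)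
    rw [map_zero, ← MvPolynomial.aeval_algebraMap_apply] at h2
    exact h2

end Pool.Agent.Lib.MP_1ad228_ntU
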