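import Mathlib

/-! Global fields, boxes of bounded height, forms, smooth complete intersections, local solubility: the definitions of the
final statement. -/

namespace Pool.Agent.Lib.MP_1ad228_ntU

variable {K : Type} [Field K]

/-- `K` is a global field and `t` an element of it, of one of the following two kinds: `K` is a number field and `t` an integer
greater than 1; or `K` is a finite separable extension of the field of rational functions over a finite field, and `t` is its
variable. -/
def GlobalField (K : Type) [Field K] (t : K) : Prop :=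
  (NumberField K ∧ ∃ N : ℕ, 2 ≤ N ∧ t = N) ∨
    ∃ (F : Type) (_ : Field F) (_ : Algebra (RatFunc F) K), Finite F ∧
      FiniteDimensional (RatFunc F) K ∧ Algebra.IsSeparable (RatFunc F) K ∧
      t = algebraMap (RatFunc F) K RatFunc.X

/-- The elements `z` of `K` with `|z| ≤ max (1, |t|) ^ c` for all absolute values of `K`. -/
def Box (t : K) (c : ℕ) : Set K :=
  {z | ∀ v : AbsoluteValue K ℝ, v z ≤ max 1 (v t) ^ c}

/-- Forms of degree `d` in `n + 1` variables over `K` with all coefficients in the set `L`. -/
def FormsIn (L : Set K) (n d : ℕ) : Set (MvPolynomial (Fin (n + 1)) K) :=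
  {f | f.IsHomogeneous d ∧ ∀ m, f.coeff m ∈ L}

/-- The forms `f k` define a smooth complete intersection of codimension `r` (over the algebraic
closure of `K`): their gradients are linearly independent at every nonzero common zero. -/
def SmoothCI {n r : ℕ} (f : Fin r → MvPolynomial (Fin (n + 1)) K) : Prop :=
  ∀ x : Fin (n + 1) → AlgebraicClosure K, x ≠ 0 → (∀ k, MvPolynomial.aeval x (f k) = 0) →
    LinearIndependent (AlgebraicClosure K)
      (fun (k : Fin r) (i : Fin (n + 1)) => MvPolynomial.aeval x (MvPolynomial.pderiv i (f k)))

/-- The forms have a common nonzero zero over the completion of `K` at every nontrivial absolute value. -/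
def LocSol {n r : ℕ} (f : Fin r → MvPolynomial (Fin (n + 1)) K) : Prop :=
  ∀ v : AbsoluteValue K ℝ, v.IsNontrivial → ∃ x : Fin (n + 1) → v.Completion, x ≠ 0 ∧
    ∀ k, MvPolynomial.aeval x (f k) = 0

/-- The forms have a common nonzero zero with coordinates in the set `L`. -/
def ZeroIn (L : Set K) {n r : ℕ} (f : Fin r → MvPolynomial (Fin (n + 1)) K) : Prop :=
  ∃ x : Fin (n + 1) → K, x ≠ 0 ∧ (∀ i, x i ∈ L) ∧ ∀ k, MvPolynomial.aeval x (f k) = 0

end Pool.Agent.Lib.MP_1ad228_ntU
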