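import Pool.Agent.Lib.MP_1ad228_ntU.U_BoxN
import Pool.Agent.Lib.MP_1ad228_ntN.FM_Fin

/-!
LEAF U_Num.  Number fields: from forms over the ring of integers (folder ntN) to forms over `K` with coefficients in the box.
Let `m` be the map `f ↦ fun k => MvPolynomial.map (algebraMap (𝓞 K) K) (f k)`, injective (`MvPolynomial.map_injective`, `RingOfIntegers.coe_injective`
or `IsFractionRing.injective`). Facts.
(1) `m '' {f | ∀ k, f k ∈ Forms K n (d k) (N ^ a)} = {f | ∀ k, f k ∈ FormsIn (Box N a) n (d k)}`: `mem_boxN`; a polynomial over `K` all of whose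
coefficients are integral is the image of one over `𝓞 K` (`MvPolynomial.mem_range_map_iff_coeffs_subset` or similar, or sum of monomials);
`IsHomogeneous` passes in both directions (coefficients: `MvPolynomial.IsHomogeneous`, `coeff_map`).
(2) `ntN.SmoothCI f ↔ SmoothCI (m f)`: `MvPolynomial.aeval_map_algebraMap` (tower 𝓞 K → K → closure), `MvPolynomial.pderiv_map`.
(3) `LocSol (m f) → ntN.LocSol f`: `embHom` for `ℝ` and for `ℂ` (the absolute value `absOf σ` is nontrivial: `‖σ 2‖ = 2`), `adicHom` for the primes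
(`v.adicAbv` is nontrivial: a nonzero element of the prime has absolute value `< 1`, `adicAbv_coe_lt_one_iff`); images of nonzero vectors under a
homomorphism of fields are nonzero; `aeval (fun i => φ (x i)) = φ (aeval x)` on polynomials over `K`.
(4) If `m f` has no zero in `Box N b` with `b e ≤ r a + M + e` (where `e = n + 1 - ∑ d ≥ 1`) then `f` has no small zero:
`¬ SmallZero e (M (N ^ a) ^ r) f`: from `|φ y| ^ e ≤ M N^(a r) ≤ N^(r a + M)` (as `M ≤ 2^M ≤ N^M`) and `b = ⌈(r a + M)/e⌉` one gets `|φ y| ^ e ≤ N^(b e)`,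
`|φ y| ≤ N ^ b`, `b e ≤ r a + M + e`. (`hD` gives `e ≥ 1`.)
(5) a nonzero zero `x` over `𝓞 K` of `f` gives `LocSol (m f)` (images of the coordinates under `𝓞 K → K → v.Completion`, injective).
(6) the box is finite: `NumberField.Embeddings.finite_of_norm_le`.
Bad sets: `{bad in U} ⊆ m '' {bad in N}` by (1), (3), (4), so `formsBad K n d hM ε'` bounds it by `ε' A^(e UpT)`, `A = N ^ a`
(`A ≥ A0` if `a ≥ A0`, `N ^ a ≥ 2 ^ a > a`); good sets: `m '' {good in N}` (smooth with a zero) `⊆ {good in U}` by (1), (2), (5), so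
`formsGood K n d hN hP` gives `δ A^(e UpT) ≤ #good`; take `ε' = ε δ`. Third part: `final2 K n d hN hP` in the same way.
(`Set.ncard_image_of_injective`, `Set.ncard_le_ncard`, finiteness of the sets from `FormsT_finite n d`, a theorem of FM_Loc / FM_Xfer.)
-/

namespace Pool.Agent.Lib.MP_1ad228_ntU

open Classical NumberField

open Pool.Agent.Lib.MP_1ad228_ntN in
private theorem U_Num_aeval {K : Type} [Field K] {L : Type} [Field L] {v : AbsoluteValue K ℝ}
    (φ : v.Completion →+* L) (σ : K →+* L) (h : ∀ z : K, φ (algebraMap K _ z) = σ z)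
    [NumberField K] {n r : ℕ} {f : Fin r → MvPolynomial (Fin (n + 1)) (𝓞 K)}
    (hf : ∃ x : Fin (n + 1) → v.Completion, x ≠ 0 ∧
      ∀ k, MvPolynomial.aeval x (MvPolynomial.map (algebraMap (𝓞 K) K) (f k)) = 0) :
    ∃ x : Fin (n + 1) → L, x ≠ 0 ∧
      ∀ k, (f k).eval₂ (σ.comp (algebraMap (𝓞 K) K)) x = 0 := by
  obtain ⟨x, hx, hx0⟩ := hf
  refine ⟨φ ∘ x, ?_, fun k => ?_⟩
  · intro h0
    apply hx
    funext i
    have h1 : φ (x i) = 0 := congrFun h0 i
    exact (map_eq_zero φ).1 h1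
  · have h1 := congrArg φ (hx0 k)
    rw [MvPolynomial.aeval_def, MvPolynomial.eval₂_map, MvPolynomial.eval₂_comp_left, map_zero]
      at h1
    have h2 : φ.comp ((algebraMap K v.Completion).comp (algebraMap (𝓞 K) K)) =
        σ.comp (algebraMap (𝓞 K) K) := by
      ext z
      exact h _
    rwa [h2] at h1

private theorem U_Num_nontriv {K : Type} [Field K] {L : Type} [NormedField L] (σ : K →+* L)
    (h2 : ‖(2 : L)‖ = 2) : (absOf σ).IsNontrivial := by
  have h3 : absOf σ 2 = 2 := by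
    show ‖σ 2‖ = 2
    rw [map_ofNat, h2]
  refine ⟨2, ?_, ?_⟩
  · intro h0
    rw [h0, map_zero] at h3
    norm_num at h3
  · rw [h3]
    norm_num

section

variable (K : Type) [Field K] [NumberField K]

/-- Forms over the ring of integers as forms over the field. -/
private noncomputable def U_Num_m {n r : ℕ} (f : Fin r → MvPolynomial (Fin (n + 1)) (𝓞 K)) :
    Fin r → MvPolynomial (Fin (n + 1)) K :=
  fun k => MvPolynomial.map (algebraMap (𝓞 K) K) (f k)

private theorem U_Num_inj {n r : ℕ} : Function.Injective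
    (U_Num_m K : (Fin r → MvPolynomial (Fin (n + 1)) (𝓞 K)) → _) := by
  intro f g h
  funext k
  exact MvPolynomial.map_injective _ NumberField.RingOfIntegers.coe_injective (congrFun h k)

private theorem U_Num_loc {n r : ℕ} {f : Fin r → MvPolynomial (Fin (n + 1)) (𝓞 K)}
    (hf : LocSol (U_Num_m K f)) : Pool.Agent.Lib.MP_1ad228_ntN.LocSol f := by
  refine ⟨fun σ => ?_, fun σ => ?_, fun v => ?_⟩
  · obtain ⟨φ, hφ⟩ := embHom σ
    exact U_Num_aeval φ σ hφ (hf (absOf σ) (U_Num_nontriv σ (by simp)))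
  · obtain ⟨φ, hφ⟩ := embHom σ
    exact U_Num_aeval φ σ hφ (hf (absOf σ) (U_Num_nontriv σ (by simp)))
  · have hb : (1 : NNReal) < 2 := by norm_num
    obtain ⟨φ, hφ⟩ := adicHom (K := K) (𝓞 K) v hb
    have hnt : (v.adicAbv (K := K) hb).IsNontrivial := by
      obtain ⟨y, hy, hy0⟩ := Submodule.exists_mem_ne_zero_of_ne_bot v.ne_bot
      refine ⟨algebraMap (𝓞 K) K y, ?_, ?_⟩
      · intro h0
        apply hy0
        apply NumberField.RingOfIntegers.coe_injective (K := K)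
        rw [h0, map_zero]
      · exact ((IsDedekindDomain.HeightOneSpectrum.adicAbv_coe_lt_one_iff v hb y).2 hy).ne
    obtain ⟨x, hx, hx0⟩ := U_Num_aeval φ (algebraMap K (v.adicCompletion K)) hφ
      (hf (v.adicAbv (K := K) hb) hnt)
    refine ⟨x, hx, fun k => ?_⟩
    have h1 := hx0 k
    rw [MvPolynomial.aeval_def, IsScalarTower.algebraMap_eq (𝓞 K) K (v.adicCompletion K)]
    exact h1

private theorem U_Num_loc' {n r : ℕ} {f : Fin r → MvPolynomial (Fin (n + 1)) (𝓞 K)}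
    (h : ∃ x : Fin (n + 1) → 𝓞 K, x ≠ 0 ∧ ∀ k, MvPolynomial.aeval x (f k) = 0) :
    LocSol (U_Num_m K f) := by
  obtain ⟨x, hx, hx0⟩ := h
  intro v _
  refine ⟨fun i => algebraMap K v.Completion (algebraMap (𝓞 K) K (x i)), ?_, fun k => ?_⟩
  · intro h0
    apply hx
    funext i
    have h1 : algebraMap K v.Completion (algebraMap (𝓞 K) K (x i)) = 0 := congrFun h0 i
    have h2 := (map_eq_zero (algebraMap K v.Completion)).1 h1
    apply NumberField.RingOfIntegers.coe_injective (K := K)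
    rw [h2, Pi.zero_apply, map_zero]
  · have h1 := congrArg ((algebraMap K v.Completion).comp (algebraMap (𝓞 K) K)) (hx0 k)
    rw [MvPolynomial.aeval_def, MvPolynomial.eval₂_comp_left, map_zero] at h1
    unfold U_Num_m
    rw [MvPolynomial.aeval_def, MvPolynomial.eval₂_map]
    exact h1

private theorem U_Num_smooth {n r : ℕ} {f : Fin r → MvPolynomial (Fin (n + 1)) (𝓞 K)}
    (h : Pool.Agent.Lib.MP_1ad228_ntN.SmoothCI f) : SmoothCI (U_Num_m K f) := by
  intro x hx hx0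
  have h1 : ∀ k, MvPolynomial.aeval x (f k) = 0 := by
    intro k
    rw [← hx0 k]
    exact (MvPolynomial.aeval_map_algebraMap K x (f k)).symm
  have h2 := h x hx h1
  have h3 : (fun (k : Fin r) (i : Fin (n + 1)) =>
      MvPolynomial.aeval x (MvPolynomial.pderiv i (U_Num_m K f k))) =
      fun (k : Fin r) (i : Fin (n + 1)) => MvPolynomial.aeval x (MvPolynomial.pderiv i (f k)) := by
    funext k i
    unfold U_Num_m
    rw [MvPolynomial.pderiv_map, MvPolynomial.aeval_map_algebraMap]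
  rw [h3]
  exact h2

private theorem U_Num_forms (N : ℕ) (hN2 : 2 ≤ N) (n : ℕ) {r : ℕ} (d : Fin r → ℕ) (a : ℕ)
    (f : Fin r → MvPolynomial (Fin (n + 1)) (𝓞 K)) :
    (∀ k, U_Num_m K f k ∈ FormsIn (Box (N : K) a) n (d k)) ↔
      ∀ k, f k ∈ Pool.Agent.Lib.MP_1ad228_ntN.Forms K n (d k) ((N ^ a : ℕ) : ℝ) := by
  refine forall_congr' fun k => ?_
  constructor
  · rintro ⟨h1, h2⟩
    refine ⟨MvPolynomial.IsHomogeneous.of_map NumberField.RingOfIntegers.coe_injective h1,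
      fun m φ => ?_⟩
    have h3 := ((mem_boxN K N hN2 a _).1 (h2 m)).2 φ
    unfold U_Num_m at h3
    rw [MvPolynomial.coeff_map] at h3
    push_cast
    exact h3
  · rintro ⟨h1, h2⟩
    refine ⟨h1.map _, fun m => ?_⟩
    rw [mem_boxN K N hN2 a]
    unfold U_Num_m
    rw [MvPolynomial.coeff_map]
    refine ⟨NumberField.RingOfIntegers.isIntegral_coe _, fun φ => ?_⟩
    have h3 := h2 m φ
    push_cast at h3
    exact h3

private theorem U_Num_surj (N : ℕ) (hN2 : 2 ≤ N) (n : ℕ) {r : ℕ} (d : Fin r → ℕ) (a : ℕ)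
    (g : Fin r → MvPolynomial (Fin (n + 1)) K)
    (h : ∀ k, g k ∈ FormsIn (Box (N : K) a) n (d k)) :
    ∃ f : Fin r → MvPolynomial (Fin (n + 1)) (𝓞 K), U_Num_m K f = g := by
  have h1 : ∀ k, ∃ f : MvPolynomial (Fin (n + 1)) (𝓞 K),
      MvPolynomial.map (algebraMap (𝓞 K) K) f = g k := by
    intro k
    have h2 : g k ∈ Set.range (MvPolynomial.map (σ := Fin (n + 1)) (algebraMap (𝓞 K) K)) := by
      rw [MvPolynomial.mem_range_map_iff_coeffs_subset]
      intro c hc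
      rw [Finset.mem_coe, MvPolynomial.mem_coeffs_iff] at hc
      obtain ⟨m, -, rfl⟩ := hc
      have h3 := ((mem_boxN K N hN2 a _).1 ((h k).2 m)).1
      exact ⟨⟨_, h3⟩, rfl⟩
    exact h2
  choose f hf using h1
  exact ⟨f, funext hf⟩

private theorem U_Num_zero (N : ℕ) (hN2 : 2 ≤ N) {n r e a M b : ℕ} (he : 1 ≤ e)
    (hb : r * a + M ≤ b * e) {f : Fin r → MvPolynomial (Fin (n + 1)) (𝓞 K)}
    (h : Pool.Agent.Lib.MP_1ad228_ntN.SmallZero e ((M : ℝ) * ((N ^ a : ℕ) : ℝ) ^ r) f) :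
    ZeroIn (Box (N : K) b) (U_Num_m K f) := by
  obtain ⟨x, hx, hx1, hx0⟩ := h
  refine ⟨fun i => algebraMap (𝓞 K) K (x i), ?_, fun i => ?_, fun k => ?_⟩
  · intro h0
    apply hx
    funext i
    have h1 : algebraMap (𝓞 K) K (x i) = 0 := congrFun h0 i
    apply NumberField.RingOfIntegers.coe_injective (K := K)
    rw [h1, Pi.zero_apply, map_zero]
  · rw [mem_boxN K N hN2 b]
    refine ⟨NumberField.RingOfIntegers.isIntegral_coe _, fun φ => ?_⟩
    have hN1 : (1 : ℝ) ≤ N := by exact_mod_cast (by omega : 1 ≤ N)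
    have h1 : (M : ℝ) ≤ (N : ℝ) ^ M := by
      have h2 : M < N ^ M := Nat.lt_pow_self (by omega)
      exact_mod_cast h2.le
    have h2 : ‖φ (algebraMap (𝓞 K) K (x i))‖ ^ e ≤ ((N : ℝ) ^ b) ^ e := by
      refine (hx1 i φ).trans ?_
      push_cast
      calc (M : ℝ) * ((N : ℝ) ^ a) ^ r ≤ (N : ℝ) ^ M * ((N : ℝ) ^ a) ^ r :=
            mul_le_mul_of_nonneg_right h1 (by positivity)
        _ = (N : ℝ) ^ (r * a + M) := by
            rw [← pow_mul, ← pow_add]
            congr 1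
            ring
        _ ≤ (N : ℝ) ^ (b * e) := pow_le_pow_right₀ hN1 hb
        _ = ((N : ℝ) ^ b) ^ e := by rw [pow_mul]
    exact (pow_le_pow_iff_left₀ (norm_nonneg _) (by positivity) (by omega)).1 h2
  · have h1 := congrArg (algebraMap (𝓞 K) K) (hx0 k)
    rw [MvPolynomial.aeval_def, MvPolynomial.eval₂_comp_left, map_zero] at h1
    unfold U_Num_m
    rw [MvPolynomial.aeval_def, MvPolynomial.eval₂_map]
    exact h1

end

theorem uNum (K : Type) [Field K] [NumberField K] (N : ℕ) (hN2 : 2 ≤ N) (n : ℕ) {r : ℕ}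
    (d : Fin r → ℕ) (hD : ∑ k, d k ≤ n)
    (hN : Pool.Agent.Lib.MP_1ad228_ntN.NonSmP K n d)
    (hM : Pool.Agent.Lib.MP_1ad228_ntN.MainP K n d)
    (hP : Pool.Agent.Lib.MP_1ad228_ntN.PosP K n d) :
    (∀ c, (Box (N : K) c).Finite) ∧
    (∀ ε : ℝ, 0 < ε → ∃ M a0 : ℕ, ∀ a : ℕ, a0 ≤ a →
      (({f | (∀ k, f k ∈ FormsIn (Box (N : K) a) n (d k)) ∧ LocSol f ∧
          ¬ ∃ b : ℕ, b * (n + 1 - ∑ k, d k) ≤ r * a + M ∧ ZeroIn (Box (N : K) b) f} :
        Set (Fin r → MvPolynomial (Fin (n + 1)) K)).ncard : ℝ) ≤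
      ε * (({f | (∀ k, f k ∈ FormsIn (Box (N : K) a) n (d k)) ∧ SmoothCI f ∧ LocSol f} :
        Set (Fin r → MvPolynomial (Fin (n + 1)) K)).ncard : ℝ)) ∧
    (∃ δ : ℝ, 0 < δ ∧ ∃ a0 : ℕ, ∀ a : ℕ, a0 ≤ a →
      δ * (({f | ∀ k, f k ∈ FormsIn (Box (N : K) a) n (d k)} :
        Set (Fin r → MvPolynomial (Fin (n + 1)) K)).ncard : ℝ) ≤
      (({f | (∀ k, f k ∈ FormsIn (Box (N : K) a) n (d k)) ∧ SmoothCI f ∧ LocSol f} :
        Set (Fin r → MvPolynomial (Fin (n + 1)) K)).ncard : ℝ)) := by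
  obtain ⟨e, he⟩ : ∃ e, e = n + 1 - ∑ k, d k := ⟨_, rfl⟩
  have he1 : 1 ≤ e := by omega
  have hfin : ∀ a : ℕ, ({f | ∀ k, f k ∈ Pool.Agent.Lib.MP_1ad228_ntN.Forms K n (d k)
      ((N ^ a : ℕ) : ℝ)} : Set (Fin r → MvPolynomial (Fin (n + 1)) (𝓞 K))).Finite := fun a =>
    Pool.Agent.Lib.MP_1ad228_ntN.FormsT_finite n d (Nat.cast_nonneg _)
  have himg : ∀ a : ℕ, ({f | ∀ k, f k ∈ FormsIn (Box (N : K) a) n (d k)} :
      Set (Fin r → MvPolynomial (Fin (n + 1)) K)) =
      U_Num_m K '' {f | ∀ k, f k ∈ Pool.Agent.Lib.MP_1ad228_ntN.Forms K n (d k)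
        ((N ^ a : ℕ) : ℝ)} := by
    intro a
    ext g
    constructor
    · intro hg
      obtain ⟨f, rfl⟩ := U_Num_surj K N hN2 n d a g hg
      exact ⟨f, (U_Num_forms K N hN2 n d a f).1 hg, rfl⟩
    · rintro ⟨f, hf, rfl⟩
      exact (U_Num_forms K N hN2 n d a f).2 hf
  have hfinU : ∀ a : ℕ, ({f | ∀ k, f k ∈ FormsIn (Box (N : K) a) n (d k)} :
      Set (Fin r → MvPolynomial (Fin (n + 1)) K)).Finite := by
    intro a
    rw [himg a]
    exact (hfin a).image _
  have hgood : ∀ a : ℕ, (({f | (∀ k, f k ∈ Pool.Agent.Lib.MP_1ad228_ntN.Forms K n (d k)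
        ((N ^ a : ℕ) : ℝ)) ∧ Pool.Agent.Lib.MP_1ad228_ntN.SmoothCI f ∧
        ∃ x : Fin (n + 1) → 𝓞 K, x ≠ 0 ∧ ∀ k, MvPolynomial.aeval x (f k) = 0} :
      Set (Fin r → MvPolynomial (Fin (n + 1)) (𝓞 K))).ncard : ℝ) ≤
      (({f | (∀ k, f k ∈ FormsIn (Box (N : K) a) n (d k)) ∧ SmoothCI f ∧ LocSol f} :
        Set (Fin r → MvPolynomial (Fin (n + 1)) K)).ncard : ℝ) := by
    intro a
    rw [Nat.cast_le, ← Set.ncard_image_of_injective _ (U_Num_inj K)]
    refine Set.ncard_le_ncard ?_ ((hfinU a).subset fun f hf => hf.1)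
    rintro _ ⟨f, ⟨h1, h2, h3⟩, rfl⟩
    exact ⟨(U_Num_forms K N hN2 n d a f).2 h1, U_Num_smooth K h2, U_Num_loc' K h3⟩
  have hlt : ∀ a : ℕ, a ≤ N ^ a := fun a => (Nat.lt_pow_self (by omega)).le
  refine ⟨fun c => ?_, fun ε hε => ?_, ?_⟩
  · refine (NumberField.Embeddings.finite_of_norm_le K ℂ ((N : ℝ) ^ c)).subset ?_
    intro z hz
    exact (mem_boxN K N hN2 c z).1 hz
  · obtain ⟨δ, hδ, A1, h1⟩ := Pool.Agent.Lib.MP_1ad228_ntN.formsGood K n d hN hP
    obtain ⟨M, A0, h2⟩ := Pool.Agent.Lib.MP_1ad228_ntN.formsBad K n d hM (ε * δ) (mul_pos hε hδ)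
    refine ⟨M + e, max A0 A1, fun a ha => ?_⟩
    have hA0 : A0 ≤ N ^ a := (le_max_left _ _).trans (ha.trans (hlt a))
    have hA1 : A1 ≤ N ^ a := (le_max_right _ _).trans (ha.trans (hlt a))
    have h3 := h2 (N ^ a) hA0
    have h4 := (h1 (N ^ a) hA1).trans (hgood a)
    refine le_trans ?_ (h3.trans ?_)
    · rw [Nat.cast_le, ← Set.ncard_image_of_injective _ (U_Num_inj K)]
      refine Set.ncard_le_ncard ?_ (((hfin a).subset fun f hf => hf.1).image _)
      rintro g ⟨g1, g2, g3⟩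
      obtain ⟨f, rfl⟩ := U_Num_surj K N hN2 n d a g g1
      refine ⟨f, ⟨(U_Num_forms K N hN2 n d a f).1 g1, U_Num_loc K g2, fun hs => g3 ?_⟩, rfl⟩
      rw [← he] at hs ⊢
      refine ⟨(r * a + M + e - 1) / e, ?_, U_Num_zero K N hN2 he1 ?_ hs⟩
      · have h5 := Nat.div_mul_le_self (r * a + M + e - 1) e
        omega
      · have h5 := Nat.lt_div_mul_add (a := r * a + M + e - 1) (b := e) (by omega)
        omega
    · rw [mul_assoc]
      exact mul_le_mul_of_nonneg_left h4 hε.le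
  · obtain ⟨δ, hδ, A1, h1⟩ := Pool.Agent.Lib.MP_1ad228_ntN.final2 K n d hN hP
    refine ⟨δ, hδ, A1, fun a ha => ?_⟩
    have h2 := (h1 (N ^ a) (ha.trans (hlt a))).trans (hgood a)
    rw [himg a, Set.ncard_image_of_injective _ (U_Num_inj K)]
    exact h2

end Pool.Agent.Lib.MP_1ad228_ntU
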