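import Pool.Agent.Lib.MP_1ad228_ntU.U_Def

/-! Cyclic covers `w ^ r = f (x)` of projective space over a global field: the definitions of the final statement. -/

namespace Pool.Agent.Lib.MP_1ad228_ntU

variable {K : Type} [Field K]

/-- The form `f` defines a smooth hypersurface (over the algebraic closure of `K`): at every nonzero
zero some partial derivative is nonzero. -/
def SmoothHyp {n : ℕ} (f : MvPolynomial (Fin (n + 1)) K) : Prop :=
  ∀ x : Fin (n + 1) → AlgebraicClosure K, x ≠ 0 → MvPolynomial.aeval x f = 0 →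
    ∃ i, MvPolynomial.aeval x (MvPolynomial.pderiv i f) ≠ 0

/-- The cyclic cover `w ^ r = f (x)` has a point with `x ≠ 0` over the completion of `K` at every
nontrivial absolute value. -/
def CycSol (r : ℕ) {n : ℕ} (f : MvPolynomial (Fin (n + 1)) K) : Prop :=
  ∀ v : AbsoluteValue K ℝ, v.IsNontrivial → ∃ (x : Fin (n + 1) → v.Completion)
    (w : v.Completion), x ≠ 0 ∧ MvPolynomial.aeval x f = w ^ r

/-- The cyclic cover `w ^ r = f (x)` has a point over `K` with `x ≠ 0` and all coordinates of `x`
in the set `L`. -/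
def PtIn (L : Set K) (r : ℕ) {n : ℕ} (f : MvPolynomial (Fin (n + 1)) K) : Prop :=
  ∃ (x : Fin (n + 1) → K) (w : K), x ≠ 0 ∧ (∀ i, x i ∈ L) ∧ MvPolynomial.aeval x f = w ^ r

end Pool.Agent.Lib.MP_1ad228_ntU
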