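import Pool.Agent.Lib.MP_1ad228_ntU.V_Def
import Pool.Agent.Lib.MP_1ad228_ntU.U_Comp
import Pool.Agent.Lib.MP_1ad228_ntU.U_BoxF
import Pool.Agent.Lib.MP_1ad228_ntZ.FinalF
import Pool.Agent.Lib.MP_1ad228_ntZC.FC_F
import Pool.Agent.Lib.MP_1ad228_ntZC.CMain
import Pool.Agent.Lib.MP_1ad228_ntZC.CPos

/-! Function fields: cyclic covers, from tensors over the two charts to forms over `K`. -/

namespace Pool.Agent.Lib.MP_1ad228_ntU

open Classical IsDedekindDomain
open Pool.Agent.Lib.MP_1ad228_ntZ (TC Vc Ten ev polyK ev_map poly eval2_poly LoT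
  aevalK_poly TCK TCK_L TCK_nonSm LL_finite LL PSolS jw CycSolR SmoothK)

private theorem V_Fun_forms {K : Type} [Field K] (L : Set K) (n d : ℕ) :
    Pool.Agent.Lib.MP_1ad228_ntZ.FormsIn L n d = FormsIn L n d := rfl

private theorem V_Fun_smooth {K : Type} [Field K] {n : ℕ} (f : MvPolynomial (Fin (n + 1)) K) :
    SmoothK f = SmoothHyp f := rfl

private theorem V_Fun_pt {K : Type} [Field K] (L : Set K) (r : ℕ) {n : ℕ}
    (f : MvPolynomial (Fin (n + 1)) K) :
    Pool.Agent.Lib.MP_1ad228_ntZ.PtIn L r f = PtIn L r f := rfl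

/-- Solubility over all completions gives points over the adic completions. -/
theorem cycSol_adic {K : Type} [Field K] (R : Type) [CommRing R] [IsDedekindDomain R]
    [Algebra R K] [IsFractionRing R K] {n r : ℕ} {f : MvPolynomial (Fin (n + 1)) K}
    (h : CycSol r f) : CycSolR R r f := by
  intro v
  have hb : (1 : NNReal) < 2 := one_lt_two
  obtain ⟨φ, hφ⟩ := adicHom (K := K) R v hb
  have hv : (v.adicAbv (K := K) hb).IsNontrivial := by
    obtain ⟨y, hy, hy0⟩ := v.asIdeal.ne_bot_iff.1 v.ne_bot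
    refine ⟨algebraMap R K y, ?_, ?_⟩
    · exact (map_ne_zero_iff _ (IsFractionRing.injective R K)).2 hy0
    · exact ((v.adicAbv_coe_lt_one_iff hb y).2 hy).ne
  obtain ⟨x, w, hx, h0⟩ := h _ hv
  refine ⟨fun i => φ (x i), φ w, ?_, ?_⟩
  · intro h1
    apply hx
    funext i
    exact φ.injective ((congrFun h1 i).trans (map_zero φ).symm)
  · have h2 := congrArg φ h0
    rw [map_pow, MvPolynomial.aeval_def, MvPolynomial.eval₂_comp_left] at h2
    rw [MvPolynomial.aeval_def, ← h2]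
    exact congrArg (fun ψ => MvPolynomial.eval₂ ψ (fun i => φ (x i)) f)
      (RingHom.ext fun z => (hφ z).symm)

/-- A point over `K` gives points over all completions. -/
theorem cycSol_of_pt {K : Type} [Field K] {n r : ℕ} {f : MvPolynomial (Fin (n + 1)) K}
    {x : Fin (n + 1) → K} {w : K} (hx : x ≠ 0) (h0 : MvPolynomial.aeval x f = w ^ r) :
    CycSol r f := by
  intro v _
  refine ⟨fun i => algebraMap K v.Completion (x i), algebraMap K v.Completion w, ?_, ?_⟩
  · intro h1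
    apply hx
    funext i
    exact (algebraMap K v.Completion).injective
      ((congrFun h1 i).trans (map_zero (algebraMap K v.Completion)).symm)
  · have h2 := congrArg (algebraMap K v.Completion) h0
    rw [map_pow, ← MvPolynomial.aeval_algebraMap_apply] at h2
    exact h2

section tc
variable {K O P : Type} [Field K] [CommRing O] [IsDedekindDomain O] [Algebra O K]
  [IsFractionRing O K] [CommRing P] [IsDedekindDomain P] [Algebra P K]
  [IsFractionRing P K] (T : TC K O P)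

/-- A positive proportion of the cyclic covers is smooth with a point. -/
theorem goodV (n r m : ℕ) (hP : T.PosC n r m) (hN : T.NonSmP n (fun _ : Fin 1 => r * m)) :
    ∃ δ : ℝ, 0 < δ ∧ ∃ a0 : ℕ, ∀ a : ℕ, a0 ≤ a → δ * ((T.Box n (r * m) a).card : ℝ) ≤
      (T.h a : ℝ) ^ LoT n (fun _ : Fin 1 => r * m) *
      (({f | f ∈ FormsIn (T.L a) n (r * m) ∧ SmoothHyp f ∧ CycSol r f} :
        Set (MvPolynomial (Fin (n + 1)) K)).ncard : ℝ) := by
  obtain ⟨δ, hδ, a1, h1⟩ := hP
  obtain ⟨a2, h2⟩ := T.nonSm1 hN (δ / 2) (by positivity)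
  refine ⟨δ / 2, by positivity, a1 + a2, fun a ha => ?_⟩
  have g1 := h1 a (by omega)
  have g2 := h2 a (by omega)
  have h3 := T.xferC n (r * m) a (fun f => SmoothHyp f ∧ CycSol r f)
  simp only [V_Fun_forms] at h3
  have h3' : (((T.Box n (r * m) a).filter fun F =>
        SmoothHyp (MvPolynomial.map (algebraMap O K) (poly F)) ∧
        CycSol r (MvPolynomial.map (algebraMap O K) (poly F))).card : ℝ) =
      (T.h a : ℝ) ^ LoT n (fun _ : Fin 1 => r * m) *
      (({f | f ∈ FormsIn (T.L a) n (r * m) ∧ SmoothHyp f ∧ CycSol r f} :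
        Set (MvPolynomial (Fin (n + 1)) K)).ncard : ℝ) := by
    rw [← Nat.cast_pow, ← Nat.cast_mul, ← h3]
    refine congrArg Nat.cast (congrArg Finset.card ?_)
    ext F
    simp only [Finset.mem_filter]
  rw [← h3']
  have hsub : ((T.Box n (r * m) a).filter fun F => ∃ (x : Vc n O) (w : O), x ≠ 0 ∧
      ev F x = w ^ r) ⊆
      ((T.Box n (r * m) a).filter fun F =>
        SmoothHyp (MvPolynomial.map (algebraMap O K) (poly F)) ∧
        CycSol r (MvPolynomial.map (algebraMap O K) (poly F))) ∪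
      ((T.Box n (r * m) a).filter fun F =>
        ¬ SmoothK (MvPolynomial.map (algebraMap O K) (poly F))) := by
    intro F hF
    rw [Finset.mem_filter] at hF
    obtain ⟨hF, x, w, hx, hx0⟩ := hF
    rw [Finset.mem_union, Finset.mem_filter, Finset.mem_filter]
    by_cases hs : SmoothK (MvPolynomial.map (algebraMap O K) (poly F))
    · left
      have hinj : Function.Injective (algebraMap O K) := IsFractionRing.injective O K
      have hy : (fun i => algebraMap O K (x i)) ≠ 0 := by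
        intro h0
        apply hx
        funext i
        exact hinj ((congrFun h0 i).trans (map_zero _).symm)
      have hz : MvPolynomial.aeval (fun i => algebraMap O K (x i))
          (MvPolynomial.map (algebraMap O K) (poly F)) = algebraMap O K w ^ r := by
        rw [aevalK_poly]
        have h5 := ev_map (algebraMap O K) F x
        rw [hx0, map_pow] at h5
        exact h5
      exact ⟨hF, hs, cycSol_of_pt hy hz⟩
    · right
      exact ⟨hF, hs⟩
  have h4 := (Finset.card_le_card hsub).trans (Finset.card_union_le _ _)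
  have h4' : (((T.Box n (r * m) a).filter fun F => ∃ (x : Vc n O) (w : O), x ≠ 0 ∧
      ev F x = w ^ r).card : ℝ) ≤
      (((T.Box n (r * m) a).filter fun F =>
        SmoothHyp (MvPolynomial.map (algebraMap O K) (poly F)) ∧
        CycSol r (MvPolynomial.map (algebraMap O K) (poly F))).card : ℝ) +
      (((T.Box n (r * m) a).filter fun F =>
        ¬ SmoothK (MvPolynomial.map (algebraMap O K) (poly F))).card : ℝ) := by
    exact_mod_cast h4
  linarith

/-- Almost all everywhere locally soluble cyclic covers have a small point. -/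
theorem final1V (n r m : ℕ) (hr : 1 ≤ r) (hM : T.MainC n r m) (hP : T.PosC n r m)
    (hN : T.NonSmP n (fun _ : Fin 1 => r * m)) (ε : ℝ) (hε : 0 < ε) :
    ∃ M a0 : ℕ, ∀ a : ℕ, a0 ≤ a →
    (({f | f ∈ FormsIn (T.L a) n (r * m) ∧ CycSol r f ∧
        ¬ ∃ b : ℕ, r * (b * (n + 1 - (r - 1) * m)) ≤ (r - 1) * a + M ∧ PtIn (T.L b) r f} :
      Set (MvPolynomial (Fin (n + 1)) K)).ncard : ℝ) ≤
      ε * (({f | f ∈ FormsIn (T.L a) n (r * m) ∧ SmoothHyp f ∧ CycSol r f} :
        Set (MvPolynomial (Fin (n + 1)) K)).ncard : ℝ) := by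
  obtain ⟨δ, hδ, a1, h1⟩ := goodV T n r m hP hN
  obtain ⟨M, a2, h2⟩ := hM (ε * δ) (mul_pos hε hδ)
  refine ⟨M, a1 + a2, fun a ha => ?_⟩
  have g1 := h1 a (by omega)
  have g2 := h2 a (by omega)
  have h3 := T.xferC n (r * m) a (fun f => CycSol r f ∧
        ¬ ∃ b : ℕ, r * (b * (n + 1 - (r - 1) * m)) ≤ (r - 1) * a + M ∧ PtIn (T.L b) r f)
  simp only [V_Fun_forms] at h3
  have hh : (0 : ℝ) < (T.h a : ℝ) ^ LoT n (fun _ : Fin 1 => r * m) := by
    have := T.h_pos a
    positivity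
  refine le_of_mul_le_mul_left ?_ hh
  have h3' : (((T.Box n (r * m) a).filter fun F =>
        CycSol r (MvPolynomial.map (algebraMap O K) (poly F)) ∧
        ¬ ∃ b : ℕ, r * (b * (n + 1 - (r - 1) * m)) ≤ (r - 1) * a + M ∧
          PtIn (T.L b) r (MvPolynomial.map (algebraMap O K) (poly F))).card : ℝ) =
      (T.h a : ℝ) ^ LoT n (fun _ : Fin 1 => r * m) *
      (({f | f ∈ FormsIn (T.L a) n (r * m) ∧ CycSol r f ∧
        ¬ ∃ b : ℕ, r * (b * (n + 1 - (r - 1) * m)) ≤ (r - 1) * a + M ∧ PtIn (T.L b) r f} :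
      Set (MvPolynomial (Fin (n + 1)) K)).ncard : ℝ) := by
    rw [← Nat.cast_pow, ← Nat.cast_mul, ← h3]
    refine congrArg Nat.cast (congrArg Finset.card ?_)
    ext F
    simp only [Finset.mem_filter]
  rw [← h3']
  have hsub : ((T.Box n (r * m) a).filter fun F =>
        CycSol r (MvPolynomial.map (algebraMap O K) (poly F)) ∧
        ¬ ∃ b : ℕ, r * (b * (n + 1 - (r - 1) * m)) ≤ (r - 1) * a + M ∧
          PtIn (T.L b) r (MvPolynomial.map (algebraMap O K) (poly F))) ⊆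
      ((T.Box n (r * m) a).filter fun F => PSolS r 1 F ∧ PSolS r (T.s ^ jw r a) (T.ttw a F) ∧
        ¬ ∃ (b : ℕ) (x : Vc n O) (w : O), r * (b * (n + 1 - (r - 1) * m)) ≤ (r - 1) * a + M ∧
          x ≠ 0 ∧ x ∈ T.VB n b ∧ ev F x = w ^ r) := by
    intro F hF
    rw [Finset.mem_filter] at hF ⊢
    obtain ⟨hF, hl, hno⟩ := hF
    refine ⟨hF, TC.psolO_of_cyc hr (cycSol_adic O hl), T.psolP_of_cyc hr hF (cycSol_adic P hl), ?_⟩
    rintro ⟨b, x, w, hb, hx, hxb, hx0⟩
    exact hno ⟨b, hb, (T.ptIn_iff hr b F).2 ⟨x, w, hx, hxb, hx0⟩⟩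
  have h4 : (((T.Box n (r * m) a).filter fun F =>
        CycSol r (MvPolynomial.map (algebraMap O K) (poly F)) ∧
        ¬ ∃ b : ℕ, r * (b * (n + 1 - (r - 1) * m)) ≤ (r - 1) * a + M ∧
          PtIn (T.L b) r (MvPolynomial.map (algebraMap O K) (poly F))).card : ℝ) ≤
      (((T.Box n (r * m) a).filter fun F => PSolS r 1 F ∧ PSolS r (T.s ^ jw r a) (T.ttw a F) ∧
        ¬ ∃ (b : ℕ) (x : Vc n O) (w : O), r * (b * (n + 1 - (r - 1) * m)) ≤ (r - 1) * a + M ∧
          x ≠ 0 ∧ x ∈ T.VB n b ∧ ev F x = w ^ r).card : ℝ) := by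
    exact_mod_cast Finset.card_le_card hsub
  calc _ ≤ ε * δ * ((T.Box n (r * m) a).card : ℝ) := h4.trans g2
    _ = ε * (δ * ((T.Box n (r * m) a).card : ℝ)) := by ring
    _ ≤ ε * ((T.h a : ℝ) ^ LoT n (fun _ : Fin 1 => r * m) *
      (({f | f ∈ FormsIn (T.L a) n (r * m) ∧ SmoothHyp f ∧ CycSol r f} :
        Set (MvPolynomial (Fin (n + 1)) K)).ncard : ℝ)) :=
        mul_le_mul_of_nonneg_left g1 hε.le
    _ = _ := by ring

/-- A positive proportion of all forms is smooth with an everywhere locally soluble cover. -/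
theorem final3V (n r m : ℕ) (hP : T.PosC n r m) (hN : T.NonSmP n (fun _ : Fin 1 => r * m)) :
    ∃ δ : ℝ, 0 < δ ∧ ∃ a0 : ℕ, ∀ a : ℕ, a0 ≤ a →
    δ * (({f | f ∈ FormsIn (T.L a) n (r * m)} :
        Set (MvPolynomial (Fin (n + 1)) K)).ncard : ℝ) ≤
      (({f | f ∈ FormsIn (T.L a) n (r * m) ∧ SmoothHyp f ∧ CycSol r f} :
        Set (MvPolynomial (Fin (n + 1)) K)).ncard : ℝ) := by
  obtain ⟨δ, hδ, a1, h1⟩ := goodV T n r m hP hN
  refine ⟨δ, hδ, a1, fun a ha => ?_⟩
  have g1 := h1 a ha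
  have hh : (0 : ℝ) < (T.h a : ℝ) ^ LoT n (fun _ : Fin 1 => r * m) := by
    have := T.h_pos a
    positivity
  refine le_of_mul_le_mul_left ?_ hh
  have h3 := T.xferC n (r * m) a (fun _ => True)
  simp only [and_true, Finset.filter_true, V_Fun_forms] at h3
  have h3' : ((T.Box n (r * m) a).card : ℝ) =
      (T.h a : ℝ) ^ LoT n (fun _ : Fin 1 => r * m) *
      (({f | f ∈ FormsIn (T.L a) n (r * m)} :
        Set (MvPolynomial (Fin (n + 1)) K)).ncard : ℝ) := by
    exact_mod_cast h3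
  rw [h3'] at g1
  refine le_trans (le_of_eq ?_) g1
  ring

end tc

open Polynomial in
theorem uFunC (F K : Type) [Field F] [Finite F] [Field K] [Algebra F[X] K]
    [Algebra (RatFunc F) K] [IsScalarTower F[X] (RatFunc F) K]
    [FiniteDimensional (RatFunc F) K] [Algebra.IsSeparable (RatFunc F) K] (n r m : ℕ)
    (hn : 2 ≤ n) (hr : 2 ≤ r) (hm : 1 ≤ m) (hmn : (r - 1) * m ≤ n) (hK : (r : K) ≠ 0) (t : K)
    (ht : t = algebraMap (RatFunc F) K RatFunc.X) :
    (∀ c, (Box t c).Finite) ∧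
    (∀ ε : ℝ, 0 < ε → ∃ M a0 : ℕ, ∀ a : ℕ, a0 ≤ a →
      (({f | f ∈ FormsIn (Box t a) n (r * m) ∧ CycSol r f ∧
          ¬ ∃ b : ℕ, r * (b * (n + 1 - (r - 1) * m)) ≤ (r - 1) * a + M ∧ PtIn (Box t b) r f} :
        Set (MvPolynomial (Fin (n + 1)) K)).ncard : ℝ) ≤
      ε * (({f | f ∈ FormsIn (Box t a) n (r * m) ∧ SmoothHyp f ∧ CycSol r f} :
        Set (MvPolynomial (Fin (n + 1)) K)).ncard : ℝ)) ∧
    (∃ δ : ℝ, 0 < δ ∧ ∃ a0 : ℕ, ∀ a : ℕ, a0 ≤ a →
      δ * (({f | f ∈ FormsIn (Box t a) n (r * m)} :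
        Set (MvPolynomial (Fin (n + 1)) K)).ncard : ℝ) ≤
      (({f | f ∈ FormsIn (Box t a) n (r * m) ∧ SmoothHyp f ∧ CycSol r f} :
        Set (MvPolynomial (Fin (n + 1)) K)).ncard : ℝ)) := by
  subst ht
  have hB : ∀ c, Box (algebraMap (RatFunc F) K RatFunc.X) c = (TCK F K).L c := by
    intro c
    rw [box_eq_LL, TCK_L]
  have hN := TCK_nonSm F K n (fun _ : Fin 1 => r * m) fun _ => Nat.mul_pos (by omega) hm
  have hM := (TCK F K).mainC
    (fun p hp hp0 => Pool.Agent.Lib.MP_1ad228_ntZ.sP_mem F K p hp hp0) n r m hn hr hm hmn hK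
  have hP := (TCK F K).posC
    (fun p hp hp0 => Pool.Agent.Lib.MP_1ad228_ntZ.sP_mem F K p hp hp0) n r m hn hr hm hmn
  have h1 := final1V (TCK F K) n r m (by omega) hM hP hN
  have h3 := final3V (TCK F K) n r m hP hN
  simp only [hB]
  refine ⟨fun c => ?_, h1, h3⟩
  rw [TCK_L]
  exact LL_finite F K c

end Pool.Agent.Lib.MP_1ad228_ntU
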