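import Pool.Agent.Lib.MP_1ad228_ntU.V_Def
import Pool.Agent.Lib.MP_1ad228_ntU.U_BoxN
import Pool.Agent.Lib.MP_1ad228_ntU.U_Comp
import Pool.Agent.Lib.MP_1ad228_ntY.FFinY

/-!
Number fields: cyclic covers, from forms over the ring of integers (folder ntY) to forms over `K` with coefficients in the box.
Copy of U_Num.lean with one form `f` of degree `r m` and a pair `(x, w)`.
-/

namespace Pool.Agent.Lib.MP_1ad228_ntU

open Classical NumberField

private theorem V_Num_aeval {K : Type} [Field K] {L : Type} [Field L] {v : AbsoluteValue K ℝ}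
    (φ : v.Completion →+* L) (σ : K →+* L) (h : ∀ z : K, φ (algebraMap K _ z) = σ z)
    [NumberField K] {n r : ℕ} {f : MvPolynomial (Fin (n + 1)) (𝓞 K)}
    (hf : ∃ (x : Fin (n + 1) → v.Completion) (w : v.Completion), x ≠ 0 ∧
      MvPolynomial.aeval x (MvPolynomial.map (algebraMap (𝓞 K) K) f) = w ^ r) :
    ∃ (x : Fin (n + 1) → L) (w : L), x ≠ 0 ∧
      f.eval₂ (σ.comp (algebraMap (𝓞 K) K)) x = w ^ r := by
  obtain ⟨x, w, hx, hx0⟩ := hf
  refine ⟨φ ∘ x, φ w, ?_, ?_⟩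
  · intro h0
    apply hx
    funext i
    have h1 : φ (x i) = 0 := congrFun h0 i
    exact (map_eq_zero φ).1 h1
  · have h1 := congrArg φ hx0
    rw [MvPolynomial.aeval_def, MvPolynomial.eval₂_map, MvPolynomial.eval₂_comp_left, map_pow]
      at h1
    have h2 : φ.comp ((algebraMap K v.Completion).comp (algebraMap (𝓞 K) K)) =
        σ.comp (algebraMap (𝓞 K) K) := by
      ext z
      exact h _
    rwa [h2] at h1

private theorem V_Num_nontriv {K : Type} [Field K] {L : Type} [NormedField L] (σ : K →+* L)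
    (h2 : ‖(2 : L)‖ = 2) : (absOf σ).IsNontrivial := by
  have h3 : absOf σ 2 = 2 := by
    show ‖σ 2‖ = 2
    rw [map_ofNat, h2]
  refine ⟨2, ?_, ?_⟩
  · intro h0
    rw [h0, map_zero] at h3
    norm_num at h3
  · rw [h3]
    norm_num

section

variable (K : Type) [Field K] [NumberField K]

/-- A form over the ring of integers as a form over the field. -/
private noncomputable def V_Num_m {n : ℕ} (f : MvPolynomial (Fin (n + 1)) (𝓞 K)) :
    MvPolynomial (Fin (n + 1)) K :=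
  MvPolynomial.map (algebraMap (𝓞 K) K) f

private theorem V_Num_inj {n : ℕ} : Function.Injective
    (V_Num_m K : (MvPolynomial (Fin (n + 1)) (𝓞 K)) → _) := by
  intro f g h
  exact MvPolynomial.map_injective _ NumberField.RingOfIntegers.coe_injective h

private theorem V_Num_loc {n r : ℕ} {f : MvPolynomial (Fin (n + 1)) (𝓞 K)}
    (hf : CycSol r (V_Num_m K f)) : Pool.Agent.Lib.MP_1ad228_ntY.CycSol r f := by
  refine ⟨fun σ => ?_, fun σ => ?_, fun v => ?_⟩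
  · obtain ⟨φ, hφ⟩ := embHom σ
    exact V_Num_aeval φ σ hφ (hf (absOf σ) (V_Num_nontriv σ (by simp)))
  · obtain ⟨φ, hφ⟩ := embHom σ
    exact V_Num_aeval φ σ hφ (hf (absOf σ) (V_Num_nontriv σ (by simp)))
  · have hb : (1 : NNReal) < 2 := by norm_num
    obtain ⟨φ, hφ⟩ := adicHom (K := K) (𝓞 K) v hb
    have hnt : (v.adicAbv (K := K) hb).IsNontrivial := by
      obtain ⟨y, hy, hy0⟩ := Submodule.exists_mem_ne_zero_of_ne_bot v.ne_bot
      refine ⟨algebraMap (𝓞 K) K y, ?_, ?_⟩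
      · intro h0
        apply hy0
        apply NumberField.RingOfIntegers.coe_injective (K := K)
        rw [h0, map_zero]
      · exact ((IsDedekindDomain.HeightOneSpectrum.adicAbv_coe_lt_one_iff v hb y).2 hy).ne
    obtain ⟨x, w, hx, hx0⟩ := V_Num_aeval φ (algebraMap K (v.adicCompletion K)) hφ
      (hf (v.adicAbv (K := K) hb) hnt)
    refine ⟨x, w, hx, ?_⟩
    rw [MvPolynomial.aeval_def, IsScalarTower.algebraMap_eq (𝓞 K) K (v.adicCompletion K)]
    exact hx0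

private theorem V_Num_loc' {n r : ℕ} {f : MvPolynomial (Fin (n + 1)) (𝓞 K)}
    (h : ∃ (x : Fin (n + 1) → 𝓞 K) (w : 𝓞 K), x ≠ 0 ∧ MvPolynomial.aeval x f = w ^ r) :
    CycSol r (V_Num_m K f) := by
  obtain ⟨x, w, hx, hx0⟩ := h
  intro v _
  refine ⟨fun i => algebraMap K v.Completion (algebraMap (𝓞 K) K (x i)),
    algebraMap K v.Completion (algebraMap (𝓞 K) K w), ?_, ?_⟩
  · intro h0
    apply hx
    funext i
    have h1 : algebraMap K v.Completion (algebraMap (𝓞 K) K (x i)) = 0 := congrFun h0 i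
    have h2 := (map_eq_zero (algebraMap K v.Completion)).1 h1
    apply NumberField.RingOfIntegers.coe_injective (K := K)
    rw [h2, Pi.zero_apply, map_zero]
  · have h1 := congrArg ((algebraMap K v.Completion).comp (algebraMap (𝓞 K) K)) hx0
    rw [MvPolynomial.aeval_def, MvPolynomial.eval₂_comp_left, map_pow] at h1
    unfold V_Num_m
    rw [MvPolynomial.aeval_def, MvPolynomial.eval₂_map]
    exact h1

private theorem V_Num_smooth {n : ℕ} {f : MvPolynomial (Fin (n + 1)) (𝓞 K)}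
    (h : Pool.Agent.Lib.MP_1ad228_ntQ.SmoothHyp f) : SmoothHyp (V_Num_m K f) := by
  intro x hx hx0
  have h1 : MvPolynomial.aeval x f = 0 := by
    rw [← hx0]
    exact (MvPolynomial.aeval_map_algebraMap K x f).symm
  obtain ⟨i, hi⟩ := h x hx h1
  refine ⟨i, ?_⟩
  unfold V_Num_m
  rw [MvPolynomial.pderiv_map, MvPolynomial.aeval_map_algebraMap]
  exact hi

private theorem V_Num_forms (N : ℕ) (hN2 : 2 ≤ N) (n d a : ℕ)
    (f : MvPolynomial (Fin (n + 1)) (𝓞 K)) :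
    V_Num_m K f ∈ FormsIn (Box (N : K) a) n d ↔
      f ∈ Pool.Agent.Lib.MP_1ad228_ntN.Forms K n d ((N ^ a : ℕ) : ℝ) := by
  constructor
  · rintro ⟨h1, h2⟩
    refine ⟨MvPolynomial.IsHomogeneous.of_map NumberField.RingOfIntegers.coe_injective h1,
      fun m φ => ?_⟩
    have h3 := ((mem_boxN K N hN2 a _).1 (h2 m)).2 φ
    unfold V_Num_m at h3
    rw [MvPolynomial.coeff_map] at h3
    push_cast
    exact h3
  · rintro ⟨h1, h2⟩
    refine ⟨h1.map _, fun m => ?_⟩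
    rw [mem_boxN K N hN2 a]
    unfold V_Num_m
    rw [MvPolynomial.coeff_map]
    refine ⟨NumberField.RingOfIntegers.isIntegral_coe _, fun φ => ?_⟩
    have h3 := h2 m φ
    push_cast at h3
    exact h3

private theorem V_Num_surj (N : ℕ) (hN2 : 2 ≤ N) (n d a : ℕ) (g : MvPolynomial (Fin (n + 1)) K)
    (h : g ∈ FormsIn (Box (N : K) a) n d) :
    ∃ f : MvPolynomial (Fin (n + 1)) (𝓞 K), V_Num_m K f = g := by
  have h2 : g ∈ Set.range (MvPolynomial.map (σ := Fin (n + 1)) (algebraMap (𝓞 K) K)) := by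
    rw [MvPolynomial.mem_range_map_iff_coeffs_subset]
    intro c hc
    rw [Finset.mem_coe, MvPolynomial.mem_coeffs_iff] at hc
    obtain ⟨m, -, rfl⟩ := hc
    have h3 := ((mem_boxN K N hN2 a _).1 (h.2 m)).1
    exact ⟨⟨_, h3⟩, rfl⟩
  exact h2

private theorem V_Num_pt (N : ℕ) (hN2 : 2 ≤ N) {n r s e a M b : ℕ} (he : 1 ≤ e)
    (hb : s * a + M ≤ b * e) {f : MvPolynomial (Fin (n + 1)) (𝓞 K)}
    (h : Pool.Agent.Lib.MP_1ad228_ntY.SmallCyc r e ((M : ℝ) * ((N ^ a : ℕ) : ℝ) ^ s) f) :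
    PtIn (Box (N : K) b) r (V_Num_m K f) := by
  obtain ⟨x, w, hx, hx1, hx0⟩ := h
  refine ⟨fun i => algebraMap (𝓞 K) K (x i), algebraMap (𝓞 K) K w, ?_, fun i => ?_, ?_⟩
  · intro h0
    apply hx
    funext i
    have h1 : algebraMap (𝓞 K) K (x i) = 0 := congrFun h0 i
    apply NumberField.RingOfIntegers.coe_injective (K := K)
    rw [h1, Pi.zero_apply, map_zero]
  · rw [mem_boxN K N hN2 b]
    refine ⟨NumberField.RingOfIntegers.isIntegral_coe _, fun φ => ?_⟩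
    have hN1 : (1 : ℝ) ≤ N := by exact_mod_cast (by omega : 1 ≤ N)
    have h1 : (M : ℝ) ≤ (N : ℝ) ^ M := by
      have h2 : M < N ^ M := Nat.lt_pow_self (by omega)
      exact_mod_cast h2.le
    have h2 : ‖φ (algebraMap (𝓞 K) K (x i))‖ ^ e ≤ ((N : ℝ) ^ b) ^ e := by
      refine (hx1 i φ).trans ?_
      push_cast
      calc (M : ℝ) * ((N : ℝ) ^ a) ^ s ≤ (N : ℝ) ^ M * ((N : ℝ) ^ a) ^ s :=
            mul_le_mul_of_nonneg_right h1 (by positivity)
        _ = (N : ℝ) ^ (s * a + M) := by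
            rw [← pow_mul, ← pow_add]
            congr 1
            ring
        _ ≤ (N : ℝ) ^ (b * e) := pow_le_pow_right₀ hN1 hb
        _ = ((N : ℝ) ^ b) ^ e := by rw [pow_mul]
    exact (pow_le_pow_iff_left₀ (norm_nonneg _) (by positivity) (by omega)).1 h2
  · have h1 := congrArg (algebraMap (𝓞 K) K) hx0
    rw [MvPolynomial.aeval_def, MvPolynomial.eval₂_comp_left, map_pow] at h1
    unfold V_Num_m
    rw [MvPolynomial.aeval_def, MvPolynomial.eval₂_map]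
    exact h1

open Pool.Agent.Lib.MP_1ad228_ntN Pool.Agent.Lib.MP_1ad228_ntF in
/-- A positive proportion of the forms is smooth with a point on the cover. -/
private theorem V_Num_pos (n r m : ℕ) (hr : 2 ≤ r) (hm : 1 ≤ m)
    (hP : Pool.Agent.Lib.MP_1ad228_ntY.PosY K n r m) :
    ∃ δ : ℝ, 0 < δ ∧ ∃ A0 : ℕ, ∀ A : ℕ, A0 ≤ A →
    δ * (({f | f ∈ Pool.Agent.Lib.MP_1ad228_ntN.Forms K n (r * m) A} :
      Set (MvPolynomial (Fin (n + 1)) (𝓞 K))).ncard : ℝ) ≤
    (({f | f ∈ Pool.Agent.Lib.MP_1ad228_ntN.Forms K n (r * m) A ∧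
        Pool.Agent.Lib.MP_1ad228_ntQ.SmoothHyp f ∧
        ∃ (x : Fin (n + 1) → 𝓞 K) (w : 𝓞 K), x ≠ 0 ∧ MvPolynomial.aeval x f = w ^ r} :
      Set (MvPolynomial (Fin (n + 1)) (𝓞 K))).ncard : ℝ) := by
  obtain ⟨δ, hδ, A1, h1⟩ := Pool.Agent.Lib.MP_1ad228_ntY.formsGoodY K n r m hr hm hP
  have hcK := CK_pos K n
  refine ⟨δ / CK K n ^ Up n (r * m), by positivity, A1 + 1, fun A hA => ?_⟩
  have hA1 : (1 : ℝ) ≤ A := by exact_mod_cast (by omega : 1 ≤ A)
  have h2 : (({f | f ∈ Forms K n (r * m) A} :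
      Set (MvPolynomial (Fin (n + 1)) (𝓞 K))).ncard : ℝ) ≤
      ((OBox K (A : ℝ)).card : ℝ) ^ Up n (r * m) := by
    exact_mod_cast card_Forms n (r * m) (Nat.cast_nonneg (α := ℝ) A)
  have h3 : ((OBox K (A : ℝ)).card : ℝ) ^ Up n (r * m) ≤ (CK K n * (A : ℝ) ^ eK K) ^ Up n (r * m) :=
    pow_le_pow_left₀ (Nat.cast_nonneg _) (OBox_up K n hA1) _
  have h4 : δ / CK K n ^ Up n (r * m) * (({f | f ∈ Forms K n (r * m) A} :
      Set (MvPolynomial (Fin (n + 1)) (𝓞 K))).ncard : ℝ) ≤ δ * (A : ℝ) ^ (eK K * Up n (r * m)) := by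
    calc δ / CK K n ^ Up n (r * m) * (({f | f ∈ Forms K n (r * m) A} :
        Set (MvPolynomial (Fin (n + 1)) (𝓞 K))).ncard : ℝ)
        ≤ δ / CK K n ^ Up n (r * m) * (CK K n * (A : ℝ) ^ eK K) ^ Up n (r * m) :=
          mul_le_mul_of_nonneg_left (h2.trans h3) (by positivity)
      _ = δ * (A : ℝ) ^ (eK K * Up n (r * m)) := by
          rw [mul_pow, ← pow_mul]
          field_simp
  exact h4.trans (h1 A (by omega))

end

theorem uNumC (K : Type) [Field K] [NumberField K] (N : ℕ) (hN2 : 2 ≤ N) (n r m : ℕ)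
    (hr : 2 ≤ r) (hm : 1 ≤ m) (hmn : (r - 1) * m ≤ n)
    (hM : Pool.Agent.Lib.MP_1ad228_ntY.MainY K n r m)
    (hP : Pool.Agent.Lib.MP_1ad228_ntY.PosY K n r m) :
    (∀ c, (Box (N : K) c).Finite) ∧
    (∀ ε : ℝ, 0 < ε → ∃ M a0 : ℕ, ∀ a : ℕ, a0 ≤ a →
      (({f | f ∈ FormsIn (Box (N : K) a) n (r * m) ∧ CycSol r f ∧
          ¬ ∃ b : ℕ, r * (b * (n + 1 - (r - 1) * m)) ≤ (r - 1) * a + M ∧
            PtIn (Box (N : K) b) r f} :
        Set (MvPolynomial (Fin (n + 1)) K)).ncard : ℝ) ≤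
      ε * (({f | f ∈ FormsIn (Box (N : K) a) n (r * m) ∧ SmoothHyp f ∧ CycSol r f} :
        Set (MvPolynomial (Fin (n + 1)) K)).ncard : ℝ)) ∧
    (∃ δ : ℝ, 0 < δ ∧ ∃ a0 : ℕ, ∀ a : ℕ, a0 ≤ a →
      δ * (({f | f ∈ FormsIn (Box (N : K) a) n (r * m)} :
        Set (MvPolynomial (Fin (n + 1)) K)).ncard : ℝ) ≤
      (({f | f ∈ FormsIn (Box (N : K) a) n (r * m) ∧ SmoothHyp f ∧ CycSol r f} :
        Set (MvPolynomial (Fin (n + 1)) K)).ncard : ℝ)) := by
  obtain ⟨e, he⟩ : ∃ e, e = r * (n + 1 - (r - 1) * m) := ⟨_, rfl⟩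
  have he1 : 1 ≤ e := by
    rw [he]
    exact Nat.mul_pos (by omega) (by omega)
  have hfin : ∀ a : ℕ, ({f | f ∈ Pool.Agent.Lib.MP_1ad228_ntN.Forms K n (r * m)
      ((N ^ a : ℕ) : ℝ)} : Set (MvPolynomial (Fin (n + 1)) (𝓞 K))).Finite := fun a =>
    Pool.Agent.Lib.MP_1ad228_ntN.Forms_finite n (r * m) (Nat.cast_nonneg _)
  have himg : ∀ a : ℕ, ({f | f ∈ FormsIn (Box (N : K) a) n (r * m)} :
      Set (MvPolynomial (Fin (n + 1)) K)) =
      V_Num_m K '' {f | f ∈ Pool.Agent.Lib.MP_1ad228_ntN.Forms K n (r * m)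
        ((N ^ a : ℕ) : ℝ)} := by
    intro a
    ext g
    constructor
    · intro hg
      obtain ⟨f, rfl⟩ := V_Num_surj K N hN2 n (r * m) a g hg
      exact ⟨f, (V_Num_forms K N hN2 n (r * m) a f).1 hg, rfl⟩
    · rintro ⟨f, hf, rfl⟩
      exact (V_Num_forms K N hN2 n (r * m) a f).2 hf
  have hfinU : ∀ a : ℕ, ({f | f ∈ FormsIn (Box (N : K) a) n (r * m)} :
      Set (MvPolynomial (Fin (n + 1)) K)).Finite := by
    intro a
    rw [himg a]
    exact (hfin a).image _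
  have hgood : ∀ a : ℕ, (({f | f ∈ Pool.Agent.Lib.MP_1ad228_ntN.Forms K n (r * m)
        ((N ^ a : ℕ) : ℝ) ∧ Pool.Agent.Lib.MP_1ad228_ntQ.SmoothHyp f ∧
        ∃ (x : Fin (n + 1) → 𝓞 K) (w : 𝓞 K), x ≠ 0 ∧ MvPolynomial.aeval x f = w ^ r} :
      Set (MvPolynomial (Fin (n + 1)) (𝓞 K))).ncard : ℝ) ≤
      (({f | f ∈ FormsIn (Box (N : K) a) n (r * m) ∧ SmoothHyp f ∧ CycSol r f} :
        Set (MvPolynomial (Fin (n + 1)) K)).ncard : ℝ) := by
    intro a
    rw [Nat.cast_le, ← Set.ncard_image_of_injective _ (V_Num_inj K)]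
    refine Set.ncard_le_ncard ?_ ((hfinU a).subset fun f hf => hf.1)
    rintro _ ⟨f, ⟨h1, h2, h3⟩, rfl⟩
    exact ⟨(V_Num_forms K N hN2 n (r * m) a f).2 h1, V_Num_smooth K h2, V_Num_loc' K h3⟩
  have hlt : ∀ a : ℕ, a ≤ N ^ a := fun a => (Nat.lt_pow_self (by omega)).le
  refine ⟨fun c => ?_, fun ε hε => ?_, ?_⟩
  · refine (NumberField.Embeddings.finite_of_norm_le K ℂ ((N : ℝ) ^ c)).subset ?_
    intro z hz
    exact (mem_boxN K N hN2 c z).1 hz
  · obtain ⟨δ, hδ, A1, h1⟩ := Pool.Agent.Lib.MP_1ad228_ntY.formsGoodY K n r m hr hm hP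
    obtain ⟨M, A0, h2⟩ := Pool.Agent.Lib.MP_1ad228_ntY.formsBadY K n r m hr hm hM (ε * δ)
      (mul_pos hε hδ)
    refine ⟨M + e, max A0 A1, fun a ha => ?_⟩
    have hA0 : A0 ≤ N ^ a := (le_max_left _ _).trans (ha.trans (hlt a))
    have hA1 : A1 ≤ N ^ a := (le_max_right _ _).trans (ha.trans (hlt a))
    have h3 := h2 (N ^ a) hA0
    have h4 := (h1 (N ^ a) hA1).trans (hgood a)
    refine le_trans ?_ (h3.trans ?_)
    · rw [Nat.cast_le, ← Set.ncard_image_of_injective _ (V_Num_inj K)]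
      refine Set.ncard_le_ncard ?_ (((hfin a).subset fun f hf => hf.1).image _)
      rintro g ⟨g1, g2, g3⟩
      obtain ⟨f, rfl⟩ := V_Num_surj K N hN2 n (r * m) a g g1
      refine ⟨f, ⟨(V_Num_forms K N hN2 n (r * m) a f).1 g1, V_Num_loc K g2,
        fun hs => g3 ?_⟩, rfl⟩
      rw [← he] at hs
      refine ⟨((r - 1) * a + M + e - 1) / e, ?_, V_Num_pt K N hN2 he1 ?_ hs⟩
      · have h5 := Nat.div_mul_le_self ((r - 1) * a + M + e - 1) e
        have h6 : r * (((r - 1) * a + M + e - 1) / e * (n + 1 - (r - 1) * m)) =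
            ((r - 1) * a + M + e - 1) / e * e := by
          rw [he]
          ring
        rw [h6]
        omega
      · have h5 := Nat.lt_div_mul_add (a := (r - 1) * a + M + e - 1) (b := e) (by omega)
        omega
    · rw [mul_assoc]
      exact mul_le_mul_of_nonneg_left h4 hε.le
  · obtain ⟨δ, hδ, A1, h1⟩ := V_Num_pos K n r m hr hm hP
    refine ⟨δ, hδ, A1, fun a ha => ?_⟩
    have h2 := (h1 (N ^ a) (ha.trans (hlt a))).trans (hgood a)
    rw [himg a, Set.ncard_image_of_injective _ (V_Num_inj K)]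
    exact h2

end Pool.Agent.Lib.MP_1ad228_ntU
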